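import Pool.Agent.ZGap.PS.Poly
import Pool.Agent.ZGap.Half.Box

/-!
# Moments of the resonator over short windows
-/

namespace Pool.Agent.ShortPos

open MeasureTheory Real Set Pool.Agent.Hadamard Pool.Agent.DirPoly Pool.Agent.ZGap
open Pool.Agent.ZGap.Res Pool.Agent.ZGap.Res.FM Pool.Agent.HalfGap

theorem QQ_moment_short {b n : ℕ} (hb : 1 ≤ b) (hn : 4 ≤ n) : ∃ K : ℝ, 0 < K ∧ ∀ T : ℝ,
    (2 : ℝ) ^ (b * n) ≤ T → ∀ y H : ℝ, T ^ (1 / (b : ℝ)) ≤ H →
    ∫ t in y..(y + H), (FM.QQ (b * n) T t) ^ (2 * n) ≤ K * H := by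
  have hb0 : (0 : ℝ) < b := by exact_mod_cast hb
  have hn0 : (0 : ℝ) < n := by exact_mod_cast (by omega : 0 < n)
  have hk0 : (0 : ℝ) < ((b * n : ℕ) : ℝ) := by push_cast; positivity
  refine ⟨2 ^ (2 * n - 1) * (1 + 8 * (n.factorial * 24 ^ n)), by positivity,
    fun T h2k y H hTH => ?_⟩
  have hT1 : 1 ≤ T := (one_le_pow₀ (by norm_num)).trans h2k
  have hT0 : 0 < T := by linarith
  have hTb : 0 < T ^ (1 / (b : ℝ)) := Real.rpow_pos_of_pos hT0 _
  have hH0 : 0 < H := hTb.trans_le hTH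
  set L := Real.log T with hL
  set D := L / ((b * n : ℕ) : ℝ) with hD
  have hD2 : Real.log 2 ≤ D := by
    rw [hD, le_div_iff₀ hk0, mul_comm, ← Real.log_pow]
    exact Real.log_le_log (by positivity) h2k
  have hl2 := Real.log_two_gt_d9
  have hD0 : 0 < D := by linarith
  have hexpD : 2 ≤ Real.exp D := by
    rw [← Real.log_le_iff_le_exp (by norm_num)]; exact hD2
  set x := ⌊Real.exp D⌋₊ with hx
  have hx2 : 2 ≤ x := by
    rw [hx]; exact Nat.le_floor (by exact_mod_cast hexpD)
  have hxle : (x : ℝ) ≤ Real.exp D := Nat.floor_le (Real.exp_pos D).le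
  have hxk : (x : ℝ) ^ n ≤ H := by
    calc (x : ℝ) ^ n ≤ (Real.exp D) ^ n := by gcongr
      _ = T ^ (1 / (b : ℝ)) := by
        rw [← Real.exp_nat_mul, Real.rpow_def_of_pos hT0, hD, ← hL]
        congr 1
        push_cast
        field_simp
      _ ≤ H := hTH
  have hlogx : Real.log x ≤ D := by
    rw [Real.log_le_iff_le_exp (by exact_mod_cast (by omega : 0 < x))]
    exact hxle
  have hlogx0 : 0 ≤ Real.log x := Real.log_natCast_nonneg x
  set P := primePoly (Gen.bb posData D) x with hP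
  have hQ : ∀ t, FM.QQ (b * n) T t = 1 + ‖P t‖ / D := fun t => rfl
  have h1 := primePoly_short (k := n) (x := x) (H := H) (B := 2) hH0 hx2 hxk
    (Gen.bb posData D) (fun n => Gen.norm_bb_le hD0 n) y
  have hPc : Continuous P := primePoly_continuous _ _
  have hle : y ≤ y + H := by linarith
  have hpi := Real.pi_lt_d2
  have i1 : IntervalIntegrable (fun t => (‖P t‖ / D) ^ (2 * n)) volume y (y + H) :=
    (by fun_prop : Continuous fun t => (‖P t‖ / D) ^ (2 * n)).intervalIntegrable _ _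
  calc ∫ t in y..(y + H), (FM.QQ (b * n) T t) ^ (2 * n)
      ≤ ∫ t in y..(y + H), 2 ^ (2 * n - 1) * (1 + (‖P t‖ / D) ^ (2 * n)) := by
        refine intervalIntegral.integral_mono_on hle ?_ ?_ fun t _ => ?_
        · have := QQ_continuous (b * n) T
          exact (by fun_prop : Continuous fun t => FM.QQ (b * n) T t ^ (2 * n)).intervalIntegrable
            _ _
        · exact (by fun_prop : Continuous fun t =>
            2 ^ (2 * n - 1) * (1 + (‖P t‖ / D) ^ (2 * n))).intervalIntegrable _ _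
        · rw [hQ]
          have := add_pow_le (zero_le_one) (by positivity : 0 ≤ ‖P t‖ / D) (2 * n)
          rwa [one_pow] at this
    _ = 2 ^ (2 * n - 1) * (H + (∫ t in y..(y + H), ‖P t‖ ^ (2 * n)) / D ^ (2 * n)) := by
        rw [intervalIntegral.integral_const_mul, intervalIntegral.integral_add (by simp) i1]
        congr 2
        · simp
        · rw [← intervalIntegral.integral_div]
          simp_rw [div_pow]
    _ ≤ 2 ^ (2 * n - 1) * (H +
          (5 / 2 * Real.pi * H * (n.factorial * (6 * 2 ^ 2 * D ^ 2) ^ n)) / D ^ (2 * n)) := by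
        gcongr
        refine h1.trans ?_
        gcongr
    _ = 2 ^ (2 * n - 1) * (H + (5 / 2 * Real.pi) * H * (n.factorial * 24 ^ n)) := by
        have e1 : (6 * 2 ^ 2 * D ^ 2) ^ n = 24 ^ n * D ^ (2 * n) := by
          rw [mul_pow, ← pow_mul]; norm_num
        rw [e1]
        field_simp
    _ ≤ 2 ^ (2 * n - 1) * (H + 8 * H * (n.factorial * 24 ^ n)) := by
        gcongr
        linarith
    _ = _ := by ring

/-- Moments of the prime sum over short windows. -/
theorem Pr_moment_short (hRH : RiemannHypothesis) {b : ℕ} (hb : 1 ≤ b) (R : ResData) (n : ℕ) :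
    ∃ K T0 : ℝ, 0 < K ∧ Real.exp 2 ≤ T0 ∧ ∀ T : ℝ, T0 ≤ T → ∀ y H : ℝ, T / 4 ≤ y →
      y + H ≤ 4 * T → T ^ (1 / (b : ℝ)) ≤ H → ∫ t in y..(y + H), ‖Pr R T t‖ ^ n ≤ K * H := by
  have hk4 : 4 ≤ b * (n + 4) := by nlinarith
  obtain ⟨C1, T1, hC1, hT1, h1⟩ := Pr_le hRH R
  obtain ⟨C2, T2, hC2, hT2, h2⟩ := W1_le hRH (k := b * (n + 4)) hk4
  obtain ⟨K, hK, h3⟩ := QQ_moment_short (b := b) (n := n + 4) hb (by omega)
  set C := C1 * (1 + C2) + 1 with hC
  have hC1' : 1 ≤ C := by
    have : 0 < C1 * (1 + C2) := by positivity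
    linarith
  refine ⟨C ^ (2 * (n + 4)) * K, max (max T1 T2) (Real.exp 2), by positivity, le_max_right _ _,
    fun T hT y H hy hyH hTH => ?_⟩
  have hTT1 : T1 ≤ T := (le_max_left _ _).trans ((le_max_left _ _).trans hT)
  have hTT2 : T2 ≤ T := (le_max_right _ _).trans ((le_max_left _ _).trans hT)
  have hT1' : 1 ≤ T := hT1.trans hTT1
  have hT0 : 0 < T := by linarith
  have hH0 : 0 < H := (Real.rpow_pos_of_pos hT0 _).trans_le hTH
  obtain ⟨h2k, hW⟩ := h2 T hTT2
  have hQ : ∀ t ∈ Icc y (y + H), ‖Pr R T t‖ ^ n ≤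
      C ^ (2 * (n + 4)) * FM.QQ (b * (n + 4)) T t ^ (2 * (n + 4)) := by
    intro t ht
    have e1 := h1 T hTT1 t (hy.trans ht.1)
    have e2 : W1 T t ≤ C2 * FM.QQ (b * (n + 4)) T t := hW t (hy.trans ht.1) (ht.2.trans hyH)
    have e3 : 1 ≤ FM.QQ (b * (n + 4)) T t := one_le_QQ hT1' t
    have e4 : ‖Pr R T t‖ ≤ C * FM.QQ (b * (n + 4)) T t := by
      calc ‖Pr R T t‖ ≤ C1 * (1 + W1 T t) := e1
        _ ≤ C1 * (FM.QQ (b * (n + 4)) T t + C2 * FM.QQ (b * (n + 4)) T t) := by gcongr
        _ = C1 * (1 + C2) * FM.QQ (b * (n + 4)) T t := by ring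
        _ ≤ C * FM.QQ (b * (n + 4)) T t := by
            gcongr
            linarith
    have e5 : 1 ≤ C * FM.QQ (b * (n + 4)) T t := by nlinarith
    calc ‖Pr R T t‖ ^ n ≤ (C * FM.QQ (b * (n + 4)) T t) ^ n := by gcongr
      _ ≤ (C * FM.QQ (b * (n + 4)) T t) ^ (2 * (n + 4)) := pow_le_pow_right₀ e5 (by omega)
      _ = _ := mul_pow _ _ _
  have hle : y ≤ y + H := by linarith
  have hPc := Pr_continuous R T
  have hQc := QQ_continuous (b * (n + 4)) T
  calc _ ≤ ∫ t in y..(y + H), C ^ (2 * (n + 4)) * FM.QQ (b * (n + 4)) T t ^ (2 * (n + 4)) := by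
        refine intervalIntegral.integral_mono_on hle ?_ ?_ hQ
        · exact (by fun_prop : Continuous fun t => ‖Pr R T t‖ ^ n).intervalIntegrable _ _
        · exact (by fun_prop : Continuous fun t =>
            C ^ (2 * (n + 4)) * FM.QQ (b * (n + 4)) T t ^ (2 * (n + 4))).intervalIntegrable _ _
    _ = C ^ (2 * (n + 4)) * ∫ t in y..(y + H), FM.QQ (b * (n + 4)) T t ^ (2 * (n + 4)) := by
        rw [intervalIntegral.integral_const_mul]
    _ ≤ C ^ (2 * (n + 4)) * (K * H) := by
        gcongr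
        exact h3 T h2k y H hTH
    _ = _ := by ring

/-- The shifted moment over short windows. -/
theorem shifted_moment_short (hRH : RiemannHypothesis) {b : ℕ} (hb : 1 ≤ b) (R : ResData)
    (n : ℕ) : ∃ K T0 : ℝ, 0 < K ∧ Real.exp 2 ≤ T0 ∧ ∀ T : ℝ, T0 ≤ T → ∀ y H : ℝ, T / 2 ≤ y →
      y + H ≤ 3 * T → T ^ (1 / (b : ℝ)) ≤ H → ∀ a : ℝ,
      ∫ t in y..(y + H), ‖Pr R T (t - a)‖ ^ n ≤ K * H * (1 + |a|) ^ n := by
  obtain ⟨K, T0, hK, hT0, h⟩ := Pr_moment_short hRH hb R n
  refine ⟨K + (|R.r| * 4) ^ n + 1, T0, by positivity, hT0, fun T hT y H hy hyH hTH a => ?_⟩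
  have hTe : Real.exp 2 ≤ T := hT0.trans hT
  have hTp : 0 < T := (Real.exp_pos _).trans_le hTe
  have hH0 : 0 < H := (Real.rpow_pos_of_pos hTp _).trans_le hTH
  have hPc := Pr_continuous R T
  have h1a : (1:ℝ) ≤ (1 + |a|) ^ n := one_le_pow₀ (by linarith [abs_nonneg a])
  rcases le_or_gt |a| (T / 4) with ha | ha
  · have h1 : ∫ t in y..(y + H), ‖Pr R T (t - a)‖ ^ n =
        ∫ t in (y - a)..(y + H - a), ‖Pr R T t‖ ^ n :=
      intervalIntegral.integral_comp_sub_right (fun t => ‖Pr R T t‖ ^ n) a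
    rw [h1, show y + H - a = (y - a) + H by ring]
    have ha' := abs_le.mp ha
    calc _ ≤ K * H := h T hT (y - a) H (by linarith [ha'.2]) (by linarith [ha'.1]) hTH
      _ ≤ (K + (|R.r| * 4) ^ n + 1) * H * 1 := by
          have : 0 ≤ (|R.r| * 4) ^ n := by positivity
          nlinarith
      _ ≤ _ := by gcongr
  · have h1 : ∫ t in y..(y + H), ‖Pr R T (t - a)‖ ^ n ≤
        ∫ t in y..(y + H), (|R.r| * T) ^ n := by
      refine intervalIntegral.integral_mono_on (by linarith) ?_ ?_ fun t _ => ?_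
      · exact (by fun_prop : Continuous fun t => ‖Pr R T (t - a)‖ ^ n).intervalIntegrable _ _
      · simp
      · gcongr
        exact norm_Pr_le R hTp.le _
    rw [intervalIntegral.integral_const, smul_eq_mul] at h1
    have h2 : (|R.r| * T) ^ n ≤ (|R.r| * 4) ^ n * (1 + |a|) ^ n := by
      rw [← mul_pow]
      have h0 := abs_nonneg R.r
      have h5 : |R.r| * T ≤ |R.r| * 4 * (1 + |a|) := by nlinarith
      gcongr
    calc _ ≤ (y + H - y) * (|R.r| * T) ^ n := h1
      _ = H * (|R.r| * T) ^ n := by ring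
      _ ≤ H * ((|R.r| * 4) ^ n * (1 + |a|) ^ n) := by gcongr
      _ = ((|R.r| * 4) ^ n) * H * (1 + |a|) ^ n := by ring
      _ ≤ _ := by
          gcongr
          linarith

/-- The generic double integral, any interval. -/
lemma double_integral_gen {R : ResData} {Φ : ℝ → ℂ} (h : PhiOK R Φ) {T : ℝ} (hT0 : 0 ≤ T)
    (n : ℕ) {s : ℝ → ℝ} (hs : Continuous s) {u v : ℝ} (huv : u ≤ v) :
    IntervalIntegrable (fun t => ∫ x : ℝ, ‖Φ x‖ * ‖Pr R T (t - s x)‖ ^ n) volume u v ∧
    ∫ t in u..v, ∫ x : ℝ, ‖Φ x‖ * ‖Pr R T (t - s x)‖ ^ n =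
      ∫ x : ℝ, ‖Φ x‖ * ∫ t in u..v, ‖Pr R T (t - s x)‖ ^ n := by
  have hPc := Pr_continuous R T
  have hΦ := h.cont
  have hprod : Integrable (fun p : ℝ × ℝ => ‖Φ p.2‖ * ‖Pr R T (p.1 - s p.2)‖ ^ n)
      ((volume.restrict (Ioc u v)).prod volume) := by
    have h1 : Integrable (fun _ : ℝ => (|R.r| * T) ^ n) (volume.restrict (Ioc u v)) :=
      integrableOn_const (by rw [Real.volume_Ioc]; exact ENNReal.ofReal_ne_top)
    have h2 := h1.mul_prod h.norm_int
    refine h2.mono' ?_ (Filter.Eventually.of_forall fun p => ?_)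
    · exact Continuous.aestronglyMeasurable (by fun_prop)
    · rw [norm_mul, norm_norm, Real.norm_of_nonneg (by positivity), mul_comm]
      gcongr
      exact norm_Pr_le R hT0 _
  constructor
  · rw [intervalIntegrable_iff, uIoc_of_le huv]
    exact hprod.integral_prod_left
  · rw [intervalIntegral.integral_of_le huv]
    rw [integral_integral_swap hprod]
    refine integral_congr_ae (Filter.Eventually.of_forall fun x => ?_)
    simp only
    rw [intervalIntegral.integral_of_le huv, integral_const_mul]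

/-- **Fourth moment of the resonator** over short windows, with an arbitrary shift. -/
theorem fourth_moment_short (hRH : RiemannHypothesis) {b : ℕ} (hb : 1 ≤ b) (R : ResData) :
    ∃ K T0 : ℝ, 0 < K ∧ Real.exp 2 ≤ T0 ∧ ∀ T : ℝ, T0 ≤ T → ∀ y H : ℝ, T / 2 ≤ y →
      y + H ≤ 3 * T → T ^ (1 / (b : ℝ)) ≤ H → ∀ a : ℝ,
      ∫ t in y..(y + H), ‖Amp R T (t - a)‖ ^ 4 ≤ K * H * (1 + |a|) ^ (4 * NN R) := by
  obtain ⟨Φ, hΦ⟩ := exists_PhiOK R
  obtain ⟨K, T0, hK, hT0, hsm⟩ := shifted_moment_short hRH hb R (4 * NN R)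
  have hth : 0 < R.th := by linarith [R.ep_th, R.ep_pos]
  have hc2 := one_le_c2 R
  set W := ∫ x, ‖Φ x‖ with hW
  have hW0 : 0 ≤ W := integral_nonneg fun x => norm_nonneg _
  set V := ∫ x, ‖Φ x‖ * (1 + |x|) ^ (4 * NN R) with hV
  have hV0 : 0 ≤ V := integral_nonneg fun x => by positivity
  set A := (1 + 2 * π / R.th) ^ (4 * NN R) with hA
  have hA0 : 0 ≤ A := by positivity
  set D := (W ^ 2) ^ 3 * ((NN R + 1) ^ 4 * 3 ^ (4 * NN R)) with hD
  have hD0 : 0 ≤ D := by positivity
  refine ⟨D * (2 * W * (K * A * V) + W ^ 2 * c2 R ^ (4 * NN R)) + 1, T0, by positivity, hT0,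
    fun T hT y H hy hyH hTH a => ?_⟩
  have hTe : Real.exp 2 ≤ T := hT0.trans hT
  have hTp : 0 < T := (Real.exp_pos _).trans_le hTe
  have hH0 : 0 < H := (Real.rpow_pos_of_pos hTp _).trans_le hTH
  have hL2 : 2 ≤ Real.log T := by rw [Real.le_log_iff_exp_le hTp]; exact hTe
  have hle : y ≤ y + H := by linarith
  have hshc := sh_continuous R T
  set P := (1 + |a|) ^ (4 * NN R) with hP
  have hP1 : 1 ≤ P := one_le_pow₀ (by linarith [abs_nonneg a])
  obtain ⟨im, em⟩ := double_integral_gen (s := fun x => a + sh R T x) hΦ hTp.le (4 * NN R)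
    (continuous_const.add hshc) hle
  obtain ⟨ip, ep⟩ := double_integral_gen (s := fun x => a + -sh R T x) hΦ hTp.le (4 * NN R)
    (continuous_const.add hshc.neg) hle
  have hJm : ∀ t, Jm R Φ T (t - a) =
      ∫ x : ℝ, ‖Φ x‖ * ‖Pr R T (t - (a + sh R T x))‖ ^ (4 * NN R) := by
    intro t
    unfold Jm
    refine integral_congr_ae (Filter.Eventually.of_forall fun x => ?_)
    simp only
    rw [sub_sub]
  have hJp : ∀ t, Jp R Φ T (t - a) =
      ∫ x : ℝ, ‖Φ x‖ * ‖Pr R T (t - (a + -sh R T x))‖ ^ (4 * NN R) := by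
    intro t
    unfold Jp
    refine integral_congr_ae (Filter.Eventually.of_forall fun x => ?_)
    simp only
    congr 4
    ring
  -- bound of the double integrals
  have hbd : ∀ s : ℝ → ℝ, Continuous s → (∀ x, |s x| ≤ |a| + |sh R T x|) →
      ∫ x : ℝ, ‖Φ x‖ * ∫ t in y..(y + H), ‖Pr R T (t - s x)‖ ^ (4 * NN R) ≤
        K * A * V * H * P := by
    intro s hs hsx
    have h1 : ∀ x, ‖Φ x‖ * ∫ t in y..(y + H), ‖Pr R T (t - s x)‖ ^ (4 * NN R) ≤
        K * A * H * P * (‖Φ x‖ * (1 + |x|) ^ (4 * NN R)) := by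
      intro x
      have h2 := hsm T hT y H hy hyH hTH (s x)
      have h3 : (1 + |s x|) ^ (4 * NN R) ≤ P * (A * (1 + |x|) ^ (4 * NN R)) := by
        rw [hA, hP, ← mul_pow, ← mul_pow]
        have h4 := abs_sh_le R (by linarith : 1 ≤ Real.log T) x
        have h5 := hsx x
        have h6 : 1 + |s x| ≤ (1 + |a|) * (1 + |sh R T x|) := by
          nlinarith [mul_nonneg (abs_nonneg a) (abs_nonneg (sh R T x))]
        have h7 : (1 + |a|) * (1 + |sh R T x|) ≤ (1 + |a|) * ((1 + 2 * π / R.th) * (1 + |x|)) := by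
          gcongr
        have h8 : 0 ≤ 1 + |s x| := by positivity
        exact pow_le_pow_left₀ h8 (h6.trans h7) _
      calc _ ≤ ‖Φ x‖ * (K * H * (1 + |s x|) ^ (4 * NN R)) := by gcongr
        _ ≤ ‖Φ x‖ * (K * H * (P * (A * (1 + |x|) ^ (4 * NN R)))) := by gcongr
        _ = _ := by ring
    have h2 : ∫ x : ℝ, ‖Φ x‖ * ∫ t in y..(y + H), ‖Pr R T (t - s x)‖ ^ (4 * NN R) ≤
        ∫ x : ℝ, K * A * H * P * (‖Φ x‖ * (1 + |x|) ^ (4 * NN R)) := by
      refine integral_mono_of_nonneg (Filter.Eventually.of_forall fun x => ?_)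
        ((hΦ.int (4 * NN R)).const_mul _) (Filter.Eventually.of_forall h1)
      refine mul_nonneg (norm_nonneg _) ?_
      exact intervalIntegral.integral_nonneg hle fun t _ => by positivity
    refine h2.trans (le_of_eq ?_)
    rw [integral_const_mul]
    ring
  have hJmb : ∫ t in y..(y + H), Jm R Φ T (t - a) ≤ K * A * V * H * P := by
    simp_rw [hJm]
    rw [em]
    exact hbd _ (continuous_const.add hshc) fun x => abs_add_le _ _
  have hJpb : ∫ t in y..(y + H), Jp R Φ T (t - a) ≤ K * A * V * H * P := by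
    simp_rw [hJp]
    rw [ep]
    refine hbd _ (continuous_const.add hshc.neg) fun x => ?_
    have := abs_add_le a (-sh R T x)
    rwa [abs_neg] at this
  have im' : IntervalIntegrable (fun t => Jm R Φ T (t - a)) volume y (y + H) := by
    have : (fun t => Jm R Φ T (t - a)) =
        fun t => ∫ x : ℝ, ‖Φ x‖ * ‖Pr R T (t - (a + sh R T x))‖ ^ (4 * NN R) := funext hJm
    rw [this]
    exact im
  have ip' : IntervalIntegrable (fun t => Jp R Φ T (t - a)) volume y (y + H) := by
    have : (fun t => Jp R Φ T (t - a)) =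
        fun t => ∫ x : ℝ, ‖Φ x‖ * ‖Pr R T (t - (a + -sh R T x))‖ ^ (4 * NN R) := funext hJp
    rw [this]
    exact ip
  have hAmpc := Amp_continuous R T
  have hpt : ∀ t, ‖Amp R T (t - a)‖ ^ 4 ≤ D * (W * Jm R Φ T (t - a) + W * Jp R Φ T (t - a) +
      W ^ 2 * c2 R ^ (4 * NN R)) := by
    intro t
    refine (norm_Amp_pow_le hΦ hTe (t - a)).trans (le_of_eq ?_)
    rw [hD]
    ring
  have i1 : IntervalIntegrable (fun t => W * Jm R Φ T (t - a) + W * Jp R Φ T (t - a)) volume
      y (y + H) := (im'.const_mul W).add (ip'.const_mul W)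
  have i2 : IntervalIntegrable (fun t => (W * Jm R Φ T (t - a) + W * Jp R Φ T (t - a)) +
      W ^ 2 * c2 R ^ (4 * NN R)) volume y (y + H) := i1.add (by simp)
  calc ∫ t in y..(y + H), ‖Amp R T (t - a)‖ ^ 4 ≤
      ∫ t in y..(y + H), D * ((W * Jm R Φ T (t - a) + W * Jp R Φ T (t - a)) +
        W ^ 2 * c2 R ^ (4 * NN R)) := by
        refine intervalIntegral.integral_mono_on hle ?_ (i2.const_mul D) fun t _ => hpt t
        exact (by fun_prop : Continuous fun t => ‖Amp R T (t - a)‖ ^ 4).intervalIntegrable _ _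
    _ = D * (W * (∫ t in y..(y + H), Jm R Φ T (t - a)) +
          W * (∫ t in y..(y + H), Jp R Φ T (t - a)) +
          (y + H - y) * (W ^ 2 * c2 R ^ (4 * NN R))) := by
        rw [intervalIntegral.integral_const_mul, intervalIntegral.integral_add i1 (by simp),
          intervalIntegral.integral_add (im'.const_mul W) (ip'.const_mul W),
          intervalIntegral.integral_const_mul, intervalIntegral.integral_const_mul,
          intervalIntegral.integral_const, smul_eq_mul]
    _ ≤ D * (W * (K * A * V * H * P) + W * (K * A * V * H * P) +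
          (H * P) * (W ^ 2 * c2 R ^ (4 * NN R))) := by
        gcongr
        nlinarith
    _ = (D * (2 * W * (K * A * V) + W ^ 2 * c2 R ^ (4 * NN R))) * H * P := by ring
    _ ≤ _ := by
        have : 0 ≤ H * P := by positivity
        nlinarith

/-- **Fourth moment of the resonator in boxes**, over all short windows. -/
theorem box_moment_short (hRH : RiemannHypothesis) {b : ℕ} (hb : 1 ≤ b) (R : ResData) (A : ℝ) :
    ∃ K T0 : ℝ, 0 < K ∧
    Real.exp 2 ≤ T0 ∧ ∀ T : ℝ, T0 ≤ T → ∃ E : ℝ → ℝ, Continuous E ∧ (∀ t, 0 ≤ E t) ∧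
      (∀ (t : ℝ) (z : ℂ), ‖z - t‖ ≤ A / Real.log T → ‖AmpC R T z‖ ≤ E t) ∧
      ∀ y H : ℝ, T / 2 ≤ y → y + H ≤ 3 * T → T ^ (1 / (b : ℝ)) ≤ H →
        ∫ t in y..(y + H), E t ^ 4 ≤ K * H := by
  obtain ⟨K, T0, hK, hT0, hfm⟩ := fourth_moment_short hRH hb R
  set N := 4 * NN R with hN
  obtain ⟨C, hC, hdec⟩ := kk_decay A (N + 2)
  have hpos : ∀ u : ℝ, 0 < 1 + |u| := fun u => by positivity
  -- the weight
  set κ : ℝ → ℝ := fun u => C * ((1 + |u|) ^ (N + 2))⁻¹ with hκ
  have hκc : Continuous κ := by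
    simp only [hκ]
    refine continuous_const.mul (Continuous.inv₀ (by fun_prop) fun u => ?_)
    exact pow_ne_zero _ (hpos u).ne'
  have hκ0 : ∀ u, 0 ≤ κ u := fun u => by simp only [hκ]; positivity
  have hκN : Integrable fun u => κ u * (1 + |u|) ^ N := by
    refine (integrable_inv_one_add_sq.const_mul C).mono'
      (by fun_prop : Continuous fun u => κ u * (1 + |u|) ^ N).aestronglyMeasurable
      (Filter.Eventually.of_forall fun u => ?_)
    rw [Real.norm_of_nonneg (mul_nonneg (hκ0 u) (by positivity))]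
    simp only [hκ]
    have h1 : 1 + u ^ 2 ≤ (1 + |u|) ^ 2 := by nlinarith [abs_nonneg u, sq_abs u]
    have h2 : C * ((1 + |u|) ^ (N + 2))⁻¹ * (1 + |u|) ^ N = C * ((1 + |u|) ^ 2)⁻¹ := by
      rw [pow_add]
      have := (hpos u).ne'
      field_simp
    rw [h2]
    gcongr
  have hκi : Integrable κ := by
    refine hκN.mono' hκc.aestronglyMeasurable (Filter.Eventually.of_forall fun u => ?_)
    rw [Real.norm_of_nonneg (hκ0 u)]
    have : 1 ≤ (1 + |u|) ^ N := one_le_pow₀ (by linarith [abs_nonneg u])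
    nlinarith [hκ0 u]
  set W := ∫ u, κ u with hW
  have hW0 : 0 ≤ W := integral_nonneg hκ0
  set V := ∫ u, κ u * (1 + |u|) ^ N with hV
  have hV0 : 0 ≤ V := integral_nonneg fun u => mul_nonneg (hκ0 u) (by positivity)
  refine ⟨W ^ 3 * (K * V) + 1, T0, by positivity, hT0, fun T hT => ?_⟩
  have hTe : Real.exp 2 ≤ T := hT0.trans hT
  have hTp : 0 < T := (Real.exp_pos _).trans_le hTe
  have hL2 : 2 ≤ Real.log T := by rw [Real.le_log_iff_exp_le hTp]; exact hTe
  have hL : 0 < Real.log T := by linarith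
  have hT1 : 1 < T := by
    have := Real.add_one_le_exp (2:ℝ); linarith
  have hAc := Amp_continuous R T
  have hAb := norm_Amp_le_alS R T
  have hS0 := alS_nonneg R T
  set E : ℝ → ℝ := fun t => ∫ u : ℝ, κ u * ‖Amp R T (t + u / Real.log T)‖ with hE
  have hE0 : ∀ t, 0 ≤ E t := fun t => integral_nonneg fun u => mul_nonneg (hκ0 u) (norm_nonneg _)
  have hpow : ∀ (n : ℕ) (t : ℝ),
      Integrable fun u => κ u * ‖Amp R T (t + u / Real.log T)‖ ^ n := by
    intro n t
    refine hκi.mul_bdd (c := alS R T ^ n) ?_ (Filter.Eventually.of_forall fun u => ?_)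
    · exact Continuous.aestronglyMeasurable (by fun_prop)
    · rw [norm_pow, norm_norm]
      gcongr
      exact hAb _
  have hEc : Continuous E := by
    simp only [hE]
    refine continuous_of_dominated (bound := fun u => κ u * alS R T) (fun t => ?_) (fun t => ?_)
      (hκi.mul_const _) ?_
    · exact Continuous.aestronglyMeasurable (by fun_prop)
    · refine Filter.Eventually.of_forall fun u => ?_
      rw [norm_mul, norm_norm, Real.norm_of_nonneg (hκ0 u)]
      have := hAb (t + u / Real.log T)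
      have := hκ0 u
      gcongr
    · exact Filter.Eventually.of_forall fun u => by fun_prop
  refine ⟨E, hEc, hE0, fun t z hz => ?_, fun y H hy hyH hTH => ?_⟩
  · -- the pointwise bound
    rw [AmpC_rep R hT1 t z]
    have h1 := hpow 1 t
    simp only [pow_one] at h1
    refine norm_integral_le_of_norm_le h1 (Filter.Eventually.of_forall fun u => ?_)
    rw [norm_mul]
    have hw : ‖(z - t) * (Real.log T : ℂ)‖ ≤ A := by
      rw [norm_mul, Complex.norm_real, Real.norm_of_nonneg hL.le]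
      rwa [le_div_iff₀ hL] at hz
    have := hdec _ hw u
    gcongr
  · -- the moment
    have hH0 : 0 < H := (Real.rpow_pos_of_pos hTp _).trans_le hTH
    have hle : y ≤ y + H := by linarith
    have hpt : ∀ t, E t ^ 4 ≤ W ^ 3 * ∫ u : ℝ, κ u * ‖Amp R T (t + u / Real.log T)‖ ^ 4 := by
      intro t
      have h1 := hpow 1 t
      simp only [pow_one] at h1
      exact pow_four_integral_le hκ0 hκi h1 (hpow 2 t) (hpow 4 t)
    have hprod : Integrable (fun p : ℝ × ℝ => κ p.2 * ‖Amp R T (p.1 + p.2 / Real.log T)‖ ^ 4)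
        ((volume.restrict (Ioc y (y + H))).prod volume) := by
      have h1 : Integrable (fun _ : ℝ => alS R T ^ 4) (volume.restrict (Ioc y (y + H))) :=
        integrableOn_const (by rw [Real.volume_Ioc]; exact ENNReal.ofReal_ne_top)
      have h2 := h1.mul_prod hκi
      refine h2.mono' ?_ (Filter.Eventually.of_forall fun p => ?_)
      · exact Continuous.aestronglyMeasurable (by fun_prop)
      · rw [norm_mul, norm_pow, norm_norm, Real.norm_of_nonneg (hκ0 _), mul_comm]
        have := hAb (p.1 + p.2 / Real.log T)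
        have := hκ0 p.2
        gcongr
    have hii : IntervalIntegrable (fun t => ∫ u : ℝ, κ u * ‖Amp R T (t + u / Real.log T)‖ ^ 4)
        volume y (y + H) := by
      rw [intervalIntegrable_iff, uIoc_of_le hle]
      exact hprod.integral_prod_left
    have hswap : ∫ t in y..(y + H), ∫ u : ℝ, κ u * ‖Amp R T (t + u / Real.log T)‖ ^ 4 =
        ∫ u : ℝ, κ u * ∫ t in y..(y + H), ‖Amp R T (t + u / Real.log T)‖ ^ 4 := by
      rw [intervalIntegral.integral_of_le hle, integral_integral_swap hprod]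
      refine integral_congr_ae (Filter.Eventually.of_forall fun u => ?_)
      simp only
      rw [intervalIntegral.integral_of_le hle, integral_const_mul]
    have hin : ∀ u : ℝ, κ u * ∫ t in y..(y + H), ‖Amp R T (t + u / Real.log T)‖ ^ 4 ≤
        K * H * (κ u * (1 + |u|) ^ N) := by
      intro u
      have h1 := hfm T hT y H hy hyH hTH (-(u / Real.log T))
      simp only [sub_neg_eq_add, abs_neg] at h1
      have h2 : |u / Real.log T| ≤ |u| := by
        rw [abs_div, abs_of_pos hL]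
        exact div_le_self (abs_nonneg _) (by linarith)
      have h0 := hκ0 u
      calc _ ≤ κ u * (K * H * (1 + |u / Real.log T|) ^ N) := by gcongr
        _ ≤ κ u * (K * H * (1 + |u|) ^ N) := by gcongr
        _ = _ := by ring
    calc ∫ t in y..(y + H), E t ^ 4 ≤
        ∫ t in y..(y + H), W ^ 3 * ∫ u : ℝ, κ u * ‖Amp R T (t + u / Real.log T)‖ ^ 4 := by
          refine intervalIntegral.integral_mono_on hle ?_ (hii.const_mul _) fun t _ => hpt t
          exact (hEc.pow 4).intervalIntegrable _ _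
      _ = W ^ 3 * ∫ u : ℝ, κ u * ∫ t in y..(y + H), ‖Amp R T (t + u / Real.log T)‖ ^ 4 := by
          rw [intervalIntegral.integral_const_mul, hswap]
      _ ≤ W ^ 3 * ∫ u : ℝ, K * H * (κ u * (1 + |u|) ^ N) := by
          refine mul_le_mul_of_nonneg_left ?_ (by positivity)
          refine integral_mono_of_nonneg (Filter.Eventually.of_forall fun u => ?_)
            (hκN.const_mul _) (Filter.Eventually.of_forall hin)
          refine mul_nonneg (hκ0 u) ?_
          exact intervalIntegral.integral_nonneg hle fun t _ => by positivity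
      _ = (W ^ 3 * (K * V)) * H := by
          rw [integral_const_mul]
          ring
      _ ≤ _ := by nlinarith

end Pool.Agent.ShortPos
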