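import Pool.Agent.ZGap.PS.Crowd

/-!
# From windows in height to windows of indices
-/

set_option autoImplicit false

namespace Pool.Agent.ShortPos

open MeasureTheory Set Filter Pool.Agent.Hadamard Pool.Agent.ZetaGaps
open scoped Topology

/-- Crude counts of the zeros near height `u`. -/
lemma zc_short : ∃ C T0 : ℝ, 0 < C ∧ ∀ u : ℝ, T0 ≤ u → (zeroCount u : ℝ) ≤ u * Real.log u ∧
    u ≤ zeroCount (u - 1) ∧ ∀ v : ℝ, u ≤ v → v ≤ 2 * u →
      (zeroCount v : ℝ) - zeroCount (u - 1) ≤ ((v - u + 1) / 3 + C) * Real.log u := by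
  obtain ⟨C, hC, hN⟩ := zeroCount_asymp
  have hpi := Real.pi_pos
  have hpi3 := Real.pi_gt_three
  have hpi4 := Real.pi_lt_four
  obtain ⟨E, hE⟩ : ∃ E : ℝ, E = 2 * Real.pi * Real.exp 1 := ⟨_, rfl⟩
  have hE0 : 0 < E := by rw [hE]; positivity
  have hlE : 1 ≤ Real.log E := by
    rw [Real.le_log_iff_exp_le hE0, hE]
    have := Real.exp_pos 1
    nlinarith
  have ev1 : ∀ᶠ u : ℝ in atTop, 32 + Real.log E ≤ Real.log (u - 1) := by
    have h1 : Tendsto (fun u : ℝ => u - 1) atTop atTop := tendsto_atTop_add_const_right _ _ tendsto_id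
    exact (Real.tendsto_log_atTop.comp h1).eventually_ge_atTop _
  have ev2 : ∀ᶠ u : ℝ in atTop, Real.log u / u < 1 / (2 * C) :=
    tendsto_log_div.eventually (gt_mem_nhds (by positivity))
  obtain ⟨T0, hT0⟩ := eventually_atTop.1 ((ev1.and ev2).and (eventually_ge_atTop (max 4 (2 * C))))
  refine ⟨4 * C, T0, by positivity, fun u hu => ?_⟩
  obtain ⟨⟨h1, h2⟩, h3⟩ := hT0 u hu
  have hu4 : 4 ≤ u := (le_max_left _ _).trans h3
  have huC : 2 * C ≤ u := (le_max_right _ _).trans h3
  have hu0 : 0 < u := by linarith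
  have hu1 : 0 < u - 1 := by linarith
  rw [div_lt_div_iff₀ hu0 (by positivity)] at h2
  have hlu : Real.log (u - 1) ≤ Real.log u := Real.log_le_log hu1 (by linarith)
  have hlu0 : 0 < Real.log u := by linarith
  have k1 := abs_le.1 (hN u (by linarith))
  have k2 := abs_le.1 (hN (u - 1) (by linarith))
  rw [← hE, Real.log_div hu0.ne' hE0.ne'] at k1
  rw [← hE, Real.log_div hu1.ne' hE0.ne'] at k2
  have hCl : C * Real.log (u - 1) ≤ C * Real.log u := mul_le_mul_of_nonneg_left hlu hC.le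
  refine ⟨?_, ?_, fun v hv1 hv2 => ?_⟩
  · have e1 : u / (2 * Real.pi) * (Real.log u - Real.log E) ≤ u / 2 * Real.log u := by
      apply mul_le_mul _ (by linarith) (by linarith) (by positivity)
      apply div_le_div_of_nonneg_left hu0.le (by norm_num) (by linarith)
    have e2 : C * Real.log u ≤ u / 2 * Real.log u :=
      mul_le_mul_of_nonneg_right (by linarith) hlu0.le
    linarith [k1.2]
  · have e1 : (u - 1) / 8 * 32 ≤ (u - 1) / (2 * Real.pi) * (Real.log (u - 1) - Real.log E) := by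
      apply mul_le_mul _ (by linarith) (by norm_num) (by positivity)
      apply div_le_div_of_nonneg_left hu1.le (by positivity) (by linarith)
    linarith [k2.1]
  · have hv0 : 0 < v := by linarith
    have k3 := abs_le.1 (hN v (by linarith))
    rw [← hE, Real.log_div hv0.ne' hE0.ne'] at k3
    have hlv : Real.log v ≤ 2 * Real.log u := by
      calc Real.log v ≤ Real.log (u * u) := Real.log_le_log hv0 (by nlinarith)
        _ = 2 * Real.log u := by rw [Real.log_mul hu0.ne' hu0.ne']; ring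
    have hCv : C * Real.log v ≤ C * (2 * Real.log u) := mul_le_mul_of_nonneg_left hlv hC.le
    have e1 : (u - 1) * (Real.log v - Real.log (u - 1)) ≤ v - u + 1 := by
      have h5 : Real.log v - Real.log (u - 1) ≤ v / (u - 1) - 1 := by
        rw [← Real.log_div hv0.ne' hu1.ne']
        exact Real.log_le_sub_one_of_pos (by positivity)
      calc (u - 1) * (Real.log v - Real.log (u - 1)) ≤ (u - 1) * (v / (u - 1) - 1) :=
            mul_le_mul_of_nonneg_left h5 hu1.le
        _ = v - u + 1 := by field_simp; ring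
    have e2 : v / (2 * Real.pi) * (Real.log v - Real.log E) -
        (u - 1) / (2 * Real.pi) * (Real.log (u - 1) - Real.log E) ≤
        (v - u + 1) * Real.log v / (2 * Real.pi) := by
      have e3 : v / (2 * Real.pi) * (Real.log v - Real.log E) -
          (u - 1) / (2 * Real.pi) * (Real.log (u - 1) - Real.log E) =
          ((v - u + 1) * (Real.log v - Real.log E) +
            (u - 1) * (Real.log v - Real.log (u - 1))) / (2 * Real.pi) := by ring
      rw [e3]
      apply div_le_div_of_nonneg_right _ (by positivity)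
      nlinarith
    have e4 : (v - u + 1) * Real.log v / (2 * Real.pi) ≤ (v - u + 1) / 3 * Real.log u := by
      rw [div_le_iff₀ (by positivity)]
      have h6 : (v - u + 1) * Real.log v ≤ (v - u + 1) * (2 * Real.log u) :=
        mul_le_mul_of_nonneg_left hlv (by linarith)
      have h7 : 0 ≤ (v - u + 1) * Real.log u := mul_nonneg (by linarith) hlu0.le
      nlinarith
    linarith [k3.2, k2.1]

/-- **(Z)** From short windows in height to short windows of indices, `M ≤ N`. -/
theorem index_of_window_aux {a b d κ : ℝ} (ha : 0 < a) (hab : a < b) (hb : b ≤ 1) (hκ : 0 < κ)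
    {T1 : ℝ} (hW : ∀ T : ℝ, T1 ≤ T → ∀ y H : ℝ, T ≤ y → y + H ≤ 2 * T → T ^ a ≤ H →
      κ * (H * Real.log T) ≤
        ({n ∈ Finset.Ioo (zeroCount (y - 1)) (zeroCount (y + H + 1)) | gap n < d}.card : ℝ)) :
    ∃ N0 : ℕ, ∀ N M : ℕ, N0 ≤ N → (N : ℝ) ^ b ≤ M → M ≤ N →
      κ / 4 * M ≤ ({n ∈ Finset.Ioc N (N + M) | gap n < d}.card : ℝ) := by
  obtain ⟨C, T2, hC, hzc⟩ := zc_short
  have ev1 : ∀ᶠ u : ℝ in atTop, 20 * u ^ a * Real.log u ≤ u ^ b := by
    have h1 := (isLittleO_log_rpow_atTop (show 0 < b - a by linarith)).bound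
      (show (0:ℝ) < 1 / 20 by norm_num)
    filter_upwards [h1, eventually_gt_atTop 1] with u hu hu1
    have hu0 : 0 < u := by linarith
    rw [Real.norm_of_nonneg (Real.log_pos hu1).le,
      Real.norm_of_nonneg (Real.rpow_pos_of_pos hu0 _).le] at hu
    have h2 : u ^ b = u ^ a * u ^ (b - a) := by
      rw [← Real.rpow_add hu0]; congr 1; ring
    rw [h2]
    have h3 : 0 < u ^ a := Real.rpow_pos_of_pos hu0 _
    nlinarith
  have ev2 : ∀ᶠ u : ℝ in atTop, (2 + 3 * C) * Real.log u ≤ u ^ b := by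
    have h1 := (isLittleO_log_rpow_atTop (show 0 < b by linarith)).bound
      (show (0:ℝ) < 1 / (2 + 3 * C) by positivity)
    filter_upwards [h1, eventually_gt_atTop 1] with u hu hu1
    have hu0 : 0 < u := by linarith
    rw [Real.norm_of_nonneg (Real.log_pos hu1).le,
      Real.norm_of_nonneg (Real.rpow_pos_of_pos hu0 _).le, one_div, inv_mul_eq_div,
      le_div_iff₀ (by positivity)] at hu
    linarith
  obtain ⟨U0, hU0⟩ := eventually_atTop.1 ((ev1.and ev2).and
    (eventually_ge_atTop (max (max T1 T2) 4)))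
  obtain ⟨N0, hN0⟩ := eventually_atTop.mp ((tendsto_ordinate.eventually_ge_atTop U0).and
    (eventually_ge_atTop 1))
  refine ⟨N0, fun N M hN hM hMN => ?_⟩
  obtain ⟨hu, hN1⟩ := hN0 N hN
  obtain ⟨⟨s1, s2⟩, s3⟩ := hU0 _ hu
  obtain ⟨u, hudef⟩ : ∃ u : ℝ, u = ordinate N := ⟨_, rfl⟩
  rw [← hudef] at s1 s2 s3
  have hu4 : 4 ≤ u := (le_max_right _ _).trans s3
  have huT1 : T1 ≤ u := (le_max_left _ _).trans ((le_max_left _ _).trans s3)
  have huT2 : T2 ≤ u := (le_max_right _ _).trans ((le_max_left _ _).trans s3)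
  have hu0 : 0 < u := by linarith
  obtain ⟨z1, z2, z3⟩ := hzc u huT2
  have hL : 1 < Real.log u := by
    rw [Real.lt_log_iff_exp_lt hu0]
    have := Real.exp_one_lt_d9
    linarith
  obtain ⟨L, hLdef⟩ : ∃ L : ℝ, L = Real.log u := ⟨_, rfl⟩
  rw [← hLdef] at s1 s2 z1 z3 hL
  -- the indices
  have i1 : N ≤ zeroCount u := by
    rw [le_zeroCount_iff (zeroCount_unbounded N) hN1, hudef]
  have i2 : zeroCount (u - 1) < N := by
    by_contra hcon
    push Not at hcon
    rw [le_zeroCount_iff (zeroCount_unbounded N) hN1, ← hudef] at hcon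
    linarith
  have i1' : (N : ℝ) ≤ zeroCount u := by exact_mod_cast i1
  have i2' : (zeroCount (u - 1) : ℝ) ≤ N := by exact_mod_cast i2.le
  have huN : u ≤ N := z2.trans i2'
  have hMu : u ^ b ≤ M := (Real.rpow_le_rpow hu0.le huN (by linarith)).trans hM
  have hMN' : (M : ℝ) ≤ N := by exact_mod_cast hMN
  have hMuL : (M : ℝ) ≤ u * L := hMN'.trans (i1'.trans z1)
  obtain ⟨v, hvdef⟩ : ∃ v : ℝ, v = ordinate (N + M) := ⟨_, rfl⟩
  have i3 : N + M ≤ zeroCount v := by
    rw [le_zeroCount_iff (zeroCount_unbounded _) (by omega), hvdef]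
  have i3' : (N : ℝ) + M ≤ zeroCount v := by exact_mod_cast i3
  have huv : u ≤ v := by
    rw [hudef, hvdef]
    exact ordinate_mono (zeroCount_unbounded _) hN1 (by omega)
  obtain ⟨h, hh⟩ : ∃ h : ℝ, h = M / (2 * L) := ⟨_, rfl⟩
  have hhu : h ≤ u / 2 := by
    rw [hh, div_le_iff₀ (by positivity)]
    linarith
  have hMh : (M : ℝ) = h * (2 * L) := by
    rw [hh]; field_simp
  have hhv : u + h < v := by
    by_cases hc : v ≤ 2 * u
    · have j1 := z3 v huv hc
      have j2 : (M : ℝ) ≤ ((v - u + 1) / 3 + C) * L := by linarith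
      have j3 : h * (2 * L) ≤ ((v - u + 1) / 3 + C) * L := by rw [← hMh]; exact j2
      have j4 : h * 2 ≤ (v - u + 1) / 3 + C := by
        have : (h * 2) * L ≤ ((v - u + 1) / 3 + C) * L := by linarith
        exact le_of_mul_le_mul_right this (by linarith)
      have j5 : (2 + 3 * C) * L ≤ h * (2 * L) := by rw [← hMh]; exact s2.trans hMu
      have j6 : (2 + 3 * C) ≤ h * 2 := by
        have : (2 + 3 * C) * L ≤ (h * 2) * L := by linarith
        exact le_of_mul_le_mul_right this (by linarith)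
      linarith
    · push Not at hc
      linarith
  -- the window
  have hu1 : 1 ≤ u ^ a := Real.one_le_rpow (by linarith) ha.le
  have hHh : 10 * u ^ a ≤ h := by
    have : 20 * u ^ a * L ≤ h * (2 * L) := by rw [← hMh]; exact s1.trans hMu
    have h2 : (10 * u ^ a) * L ≤ h * L := by linarith
    exact le_of_mul_le_mul_right h2 (by linarith)
  have g := hW u huT1 (u + 1) (h - 3) (by linarith) (by linarith) (by linarith)
  rw [← hLdef] at g
  have hsub : {n ∈ Finset.Ioo (zeroCount (u + 1 - 1)) (zeroCount (u + 1 + (h - 3) + 1)) |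
      gap n < d} ⊆ {n ∈ Finset.Ioc N (N + M) | gap n < d} := by
    intro n hn
    rw [Finset.mem_filter, Finset.mem_Ioo] at hn
    rw [Finset.mem_filter, Finset.mem_Ioc]
    have h1 : zeroCount u ≤ zeroCount (u + 1 - 1) := zeroCount_mono (by linarith)
    have h2 : zeroCount (u + 1 + (h - 3) + 1) < N + M := by
      by_contra hcon
      push Not at hcon
      rw [le_zeroCount_iff (zeroCount_unbounded _) (by omega), ← hvdef] at hcon
      linarith
    exact ⟨⟨by omega, by omega⟩, hn.2⟩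
  have g2 : κ * ((h - 3) * L) ≤ ({n ∈ Finset.Ioc N (N + M) | gap n < d}.card : ℝ) :=
    g.trans (by exact_mod_cast Finset.card_le_card hsub)
  refine le_trans ?_ g2
  rw [hMh]
  have h1 : 0 ≤ κ * L * (h - 10) := mul_nonneg (by positivity) (by linarith)
  have h3 : 0 ≤ κ * L := by positivity
  nlinarith

/-- **(Z)** From short windows in height to short windows of indices. -/
theorem index_of_window {a b d κ : ℝ} (ha : 0 < a) (hab : a < b) (hb : b ≤ 1) (hκ : 0 < κ)
    {T1 : ℝ} (hW : ∀ T : ℝ, T1 ≤ T → ∀ y H : ℝ, T ≤ y → y + H ≤ 2 * T → T ^ a ≤ H →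
      κ * (H * Real.log T) ≤
        ({n ∈ Finset.Ioo (zeroCount (y - 1)) (zeroCount (y + H + 1)) | gap n < d}.card : ℝ)) :
    ∃ N0 : ℕ, ∀ N M : ℕ, N0 ≤ N → (N : ℝ) ^ b ≤ M →
      κ / 12 * M ≤ ({n ∈ Finset.Ioc N (N + M) | gap n < d}.card : ℝ) := by
  obtain ⟨b', hb'⟩ : ∃ b' : ℝ, b' = (a + b) / 2 := ⟨_, rfl⟩
  have h1 : a < b' := by linarith
  have h2 : b' < 1 := by linarith
  have h3 : b' < b := by linarith
  obtain ⟨N1, hN1⟩ := index_of_window_aux ha h1 h2.le hκ hW
  have ev : ∀ᶠ x : ℝ in atTop, (4 * x) ^ b' ≤ x := by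
    have e1 : Tendsto (fun x : ℝ => x ^ (1 - b')) atTop atTop := tendsto_rpow_atTop (by linarith)
    filter_upwards [e1.eventually_ge_atTop (4 ^ b'), eventually_gt_atTop 0] with x hx hx0
    have e2 : x ^ (1 - b') * x ^ b' = x := by
      rw [← Real.rpow_add hx0]; simp
    have e3 : 0 < x ^ b' := Real.rpow_pos_of_pos hx0 _
    rw [Real.mul_rpow (by norm_num) hx0.le]
    exact (mul_le_mul_of_nonneg_right hx e3.le).trans_eq e2
  obtain ⟨X0, hX0⟩ := eventually_atTop.1 ev
  obtain ⟨X1, hX1⟩ := exists_nat_ge X0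
  refine ⟨max N1 (2 * X1 + 2), fun N M hN hM => ?_⟩
  have hNN1 : N1 ≤ N := (le_max_left _ _).trans hN
  have hNX : 2 * X1 + 2 ≤ N := (le_max_right _ _).trans hN
  rcases le_or_gt M N with hMN | hMN
  · have e1 : (N : ℝ) ^ b' ≤ M := by
      refine le_trans ?_ hM
      exact Real.rpow_le_rpow_of_exponent_le (by exact_mod_cast (by omega : 1 ≤ N)) h3.le
    refine le_trans ?_ (hN1 N M hNN1 e1 hMN)
    have : (0:ℝ) ≤ M := Nat.cast_nonneg _
    nlinarith
  · -- the second half
    obtain ⟨m, hm⟩ : ∃ m : ℕ, m = M / 2 := ⟨_, rfl⟩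
    have e1 : 2 * m ≤ M := by omega
    have e2 : M ≤ 3 * m := by omega
    have e3 : X1 ≤ m := by omega
    have e4 : ((N + m : ℕ) : ℝ) ^ b' ≤ m := by
      refine le_trans ?_ (hX0 m (hX1.trans (by exact_mod_cast e3)))
      apply Real.rpow_le_rpow (Nat.cast_nonneg _) _ (by linarith)
      exact_mod_cast (by omega : N + m ≤ 4 * m)
    have g := hN1 (N + m) m (by omega) e4 (by omega)
    have e5 : (M : ℝ) ≤ 3 * m := by exact_mod_cast e2
    have g2 : ({n ∈ Finset.Ioc (N + m) (N + m + m) | gap n < d}.card : ℝ) ≤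
        ({n ∈ Finset.Ioc N (N + M) | gap n < d}.card : ℝ) := by
      rw [Nat.cast_le]
      apply Finset.card_le_card
      intro n hn
      rw [Finset.mem_filter, Finset.mem_Ioc] at hn ⊢
      exact ⟨⟨by omega, by omega⟩, hn.2⟩
    refine le_trans ?_ (g.trans g2)
    calc κ / 12 * M ≤ κ / 12 * (3 * m) := mul_le_mul_of_nonneg_left e5 (by positivity)
      _ = κ / 4 * m := by ring

end Pool.Agent.ShortPos
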