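import Pool.Agent.ZGap.PS.Prop
import Pool.Agent.ZGap.PS.Index

/-!
# A positive proportion of small gaps in every short interval (RH)
-/

set_option autoImplicit false

namespace Pool.Agent.ShortPos

open MeasureTheory Set Pool.Agent.ZetaGaps Pool.Agent.HalfGap

/-- **A positive proportion of any `M ≥ N ^ a` consecutive gaps is below `1 / (1 + a) + ε`.** -/
theorem pos_index (hRH : RiemannHypothesis) {a ε : ℝ} (ha : 0 < a) (ha1 : a ≤ 1) (hε : 0 < ε) :
    ∃ κ : ℝ, 0 < κ ∧ ∃ N0 : ℕ, ∀ N M : ℕ, N0 ≤ N → (N : ℝ) ^ a ≤ M →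
      κ * M ≤ ({n ∈ Finset.Ioc N (N + M) | gap n < 1 / (1 + a) + ε}.card : ℝ) := by
  obtain ⟨a', ha'⟩ : ∃ a' : ℝ, a' = max (a / 2) (a - ε / 4) := ⟨_, rfl⟩
  have h0 : 0 < a' := by rw [ha']; exact lt_max_of_lt_left (by linarith)
  have h1 : a' < a := by rw [ha']; exact max_lt (by linarith) (by linarith)
  have h2 : a - ε / 4 ≤ a' := by rw [ha']; exact le_max_right _ _
  have h3 : 1 / (1 + a') ≤ 1 / (1 + a) + ε / 4 := by
    have e1 : 0 < 1 + a := by linarith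
    have e2 : 1 - ε / 4 ≤ 1 / (1 + a) * (1 + a') := by
      rw [div_mul_eq_mul_div, one_mul, le_div_iff₀ e1]
      nlinarith
    rw [div_le_iff₀ (by linarith), add_mul]
    nlinarith
  have h4 : 1 / (1 + a') < 1 := by
    rw [div_lt_one (by linarith)]
    linarith
  obtain ⟨τ, hτ⟩ : ∃ τ : ℝ, τ = min (1 / (1 + a') + ε / 4) ((1 / (1 + a') + 1) / 2) := ⟨_, rfl⟩
  have h5 : 1 / (1 + a') < τ := by rw [hτ]; exact lt_min (by linarith) (by linarith)
  have h6 : τ < 1 := by rw [hτ]; exact min_lt_of_right_lt (by linarith)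
  have h7 : τ ≤ 1 / (1 + a') + ε / 4 := by rw [hτ]; exact min_le_left _ _
  have h8 : 0 < τ := lt_trans (by positivity) h5
  obtain ⟨κ0, hκ0, T0, hp⟩ := prop_EE_short hRH h0 (by linarith) h5 h6
  obtain ⟨κ, hκ, T1, hcnt⟩ := count_of_EE (τ := τ) (c := τ + ε / 4) (d := 1 / (1 + a) + ε)
    h8 (by linarith) (by linarith) hκ0
  obtain ⟨N0, h⟩ := index_of_window (a := a') (b := a) (d := 1 / (1 + a) + ε) h0 h1 ha1 hκ
    (T1 := max T0 T1) fun T hT y H hy1 hy2 hH =>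
      hcnt T ((le_max_right _ _).trans hT) y H hy1 hy2
        (hp T ((le_max_left _ _).trans hT) y H hy1 hy2 hH)
  exact ⟨κ / 12, by positivity, N0, h⟩


end Pool.Agent.ShortPos
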