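import Pool.Agent.ZGap.PS.PropAA
import Pool.Agent.ZShort.SmallB0

/-!
# A positive proportion of small gaps in almost every short interval (RH)
-/

namespace Pool.Agent.ShortPos

/-- The small half of the theorem on almost all windows. -/
theorem small_B (hRH : RiemannHypothesis) {a d : ℝ} (ha : 0 < a) (ha1 : a < 1)
    (hd : 2 / (3 + a) < d) :
    Pool.Agent.ZShort.BForm a (fun n => Pool.Agent.ZetaGaps.gap n < d) :=
  Pool.Agent.ZShortAA.small_B_of (fun ha ha1 h1 h2 => prop_EE_AA hRH ha ha1 h1 h2) ha ha1 hd

end Pool.Agent.ShortPos
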