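import Pool.Agent.Lib.DirPoly.VM

/-!
# Moments of prime polynomials over short intervals
-/

namespace Pool.Agent.ShortPos

open MeasureTheory Set Pool.Agent.Hadamard Pool.Agent.DirPoly

/-- A translate of a prime polynomial is a prime polynomial with twisted coefficients. -/
lemma primePoly_add (b : ℕ → ℂ) (x : ℕ) (y t : ℝ) : primePoly b x (y + t) =
    primePoly (fun p => b p * (if p = 0 then 0 else (p : ℂ) ^ (-(y * Complex.I) : ℂ))) x t := by
  unfold primePoly
  refine Finset.sum_congr rfl fun p hp => ?_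
  have hp0 : p ≠ 0 := (Finset.mem_filter.mp hp).2.ne_zero
  have hpc : (p : ℂ) ≠ 0 := by exact_mod_cast hp0
  simp only [if_neg hp0]
  have e1 : (p : ℂ) ^ (-(((y + t : ℝ) : ℂ) * Complex.I) : ℂ) =
      (p : ℂ) ^ (-(y * Complex.I) : ℂ) * (p : ℂ) ^ (-(t * Complex.I) : ℂ) := by
    rw [← Complex.cpow_add _ _ hpc]
    congr 1
    push_cast
    ring
  rw [e1]
  ring

lemma integrable_primePoly_fejer {k x : ℕ} {T : ℝ} (hT : 0 < T) (b : ℕ → ℂ) :
    Integrable (fun t : ℝ => ‖primePoly b x t‖ ^ (2 * k) * fejerW (t / T)) := by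
  have h2 : Integrable (fun t : ℝ => fejerW (t / T)) := fejerW_integrable.comp_div hT.ne'
  have h3 : ∃ M : ℝ, ∀ t, ‖primePoly b x t‖ ≤ M := by
    refine ⟨∑ p ∈ (Finset.Icc 1 x).filter Nat.Prime,
      ‖(Real.log p : ℂ) * b p * (p : ℂ) ^ (-(1 / 2) : ℂ)‖, fun t => ?_⟩
    refine (norm_sum_le _ _).trans (Finset.sum_le_sum fun p hp => ?_)
    rw [norm_mul, Complex.norm_natCast_cpow_of_pos (Finset.mem_filter.mp hp).2.pos]
    simp
  obtain ⟨M, hM⟩ := h3
  refine (h2.const_mul (M ^ (2 * k))).mono' ?_ ?_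
  · have h4 := fejerW_continuous
    have h5 := primePoly_continuous b x
    exact Continuous.aestronglyMeasurable (by fun_prop)
  · refine Filter.Eventually.of_forall fun t => ?_
    rw [norm_mul, norm_pow, norm_norm, Real.norm_of_nonneg (fejerW_nonneg _)]
    have := fejerW_nonneg (t / T)
    gcongr
    exact hM t

/-- **High moments of prime polynomials over every interval of length `H ≥ x ^ k`.** -/
theorem primePoly_short {k x : ℕ} {H B : ℝ} (hH : 0 < H) (hx : 2 ≤ x) (hxH : (x : ℝ) ^ k ≤ H)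
    (b : ℕ → ℂ) (hb : ∀ n, ‖b n‖ ≤ B) (y : ℝ) :
    ∫ t in y..(y + H), ‖primePoly b x t‖ ^ (2 * k) ≤
      5 / 2 * Real.pi * H * (k.factorial * (6 * B ^ 2 * Real.log x ^ 2) ^ k) := by
  have hB : 0 ≤ B := (norm_nonneg _).trans (hb 0)
  set b' : ℕ → ℂ := fun p => b p * (if p = 0 then 0 else (p : ℂ) ^ (-(y * Complex.I) : ℂ)) with hb'
  have hb'' : ∀ n, ‖b' n‖ ≤ B := by
    intro n
    simp only [hb']
    split_ifs with h
    · simpa using hB
    · rw [norm_mul, Complex.norm_natCast_cpow_of_pos (Nat.pos_of_ne_zero h)]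
      simpa using hb n
  have h1 := primePoly_moment (T := H) hH hx hxH b' hb''
  have h2 : ∫ t in y..(y + H), ‖primePoly b x t‖ ^ (2 * k) =
      ∫ t in (0:ℝ)..H, ‖primePoly b' x t‖ ^ (2 * k) := by
    have e := intervalIntegral.integral_comp_add_left (a := 0) (b := H)
      (fun t => ‖primePoly b x t‖ ^ (2 * k)) y
    rw [add_zero] at e
    rw [← e]
    refine intervalIntegral.integral_congr fun t _ => ?_
    rw [primePoly_add]
  rw [h2, intervalIntegral.integral_of_le hH.le]
  have hint := integrable_primePoly_fejer (k := k) (x := x) hH b'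
  refine le_trans ?_ h1
  calc ∫ t in Ioc 0 H, ‖primePoly b' x t‖ ^ (2 * k) ≤
      ∫ t in Ioc 0 H, ‖primePoly b' x t‖ ^ (2 * k) * fejerW (t / H) := by
        refine setIntegral_mono_on ?_ hint.integrableOn measurableSet_Ioc fun t ht => ?_
        · have h6 : Continuous (fun t => ‖primePoly b' x t‖ ^ (2 * k)) :=
            (primePoly_continuous b' x).norm.pow _
          exact (h6.integrableOn_Icc (a := 0) (b := H)).mono_set Ioc_subset_Icc_self
        · have h7 : 1 ≤ fejerW (t / H) := by
            apply fejerW_ge_one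
            rw [abs_div, abs_of_pos hH, div_le_one hH, abs_of_pos ht.1]
            exact ht.2
          exact le_mul_of_one_le_right (by positivity) h7
    _ ≤ _ := by
        refine setIntegral_le_integral hint (Filter.Eventually.of_forall fun t => ?_)
        have := fejerW_nonneg (t / H)
        positivity

end Pool.Agent.ShortPos
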