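import Pool.Agent.ZGap.PS.Final
import Pool.Agent.ZShort.GapL

/-!
# The positive proportion in windows of heights
-/

set_option autoImplicit false

namespace Pool.Agent.ShortPos

open MeasureTheory Set Filter Pool.Agent.ZetaGaps
open scoped Topology

/-- many zeros in `[T, T + T ^ a]`, crude form -/
lemma many_zeros {a a' : ℝ} (ha' : 0 < a') (h1 : a' < a) (ha1 : a ≤ 1) :
    ∃ T0 : ℝ, ∀ T : ℝ, T0 ≤ T → (zeroCount T : ℝ) ^ a' + 2 ≤
      (zeroCount (T + T ^ a) : ℝ) - zeroCount T := by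
  obtain ⟨b, hb⟩ : ∃ b : ℝ, b = (a - a') / 2 := ⟨_, rfl⟩
  have hb0 : 0 < b := by linarith
  obtain ⟨T1, -, hlt⟩ := Pool.Agent.ZShort.zeroCount_lt hb0 (by linarith)
  obtain ⟨C, T2, hC, hzc⟩ := zc_short
  have ev1 : ∀ᶠ T : ℝ in atTop, Real.log T ^ a' ≤ T ^ (b / 2) := by
    have h2 := (isLittleO_log_rpow_rpow_atTop (r := a') (s := b / 2) (by linarith)).bound
      (show (0:ℝ) < 1 by norm_num)
    filter_upwards [h2, eventually_gt_atTop 1] with T hT hT1
    rw [one_mul, Real.norm_of_nonneg (Real.rpow_nonneg (Real.log_pos hT1).le _),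
      Real.norm_of_nonneg (Real.rpow_nonneg (by linarith) _)] at hT
    exact hT
  have ev2 : ∀ᶠ T : ℝ in atTop, 4 ≤ T ^ (a' + b / 2) :=
    (tendsto_rpow_atTop (by linarith)).eventually_ge_atTop _
  have ev3 : ∀ᶠ T : ℝ in atTop, 4 ≤ T ^ (b / 2) :=
    (tendsto_rpow_atTop (by linarith)).eventually_ge_atTop _
  obtain ⟨T0, hT0⟩ := eventually_atTop.1 ((ev1.and ev2).and (ev3.and
    (eventually_ge_atTop (max (max T1 T2) 2))))
  refine ⟨T0, fun T hT => ?_⟩
  obtain ⟨⟨s1, s2⟩, s3, s4⟩ := hT0 T hT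
  have hT2 : 2 ≤ T := (le_max_right _ _).trans s4
  have hTT1 : T1 ≤ T := (le_max_left _ _).trans ((le_max_left _ _).trans s4)
  have hTT2 : T2 ≤ T := (le_max_right _ _).trans ((le_max_left _ _).trans s4)
  have hTpos : 0 < T := by linarith
  have hTa : T ^ a ≤ T := by
    calc T ^ a ≤ T ^ (1:ℝ) := Real.rpow_le_rpow_of_exponent_le (by linarith) ha1
      _ = T := Real.rpow_one T
  have hL0 : 0 < Real.log T := Real.log_pos (by linarith)
  have hTb : 0 < T ^ b := Real.rpow_pos_of_pos hTpos _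
  -- the zeros one by one
  have hind : ∀ j : ℕ, (j : ℝ) * (T ^ b / 5) ≤ T → zeroCount T + j ≤
      zeroCount (T + j * (T ^ b / 5)) := by
    intro j
    induction j with
    | zero => intro _; simp
    | succ j ih =>
      intro hj
      push_cast at hj ⊢
      have h3 : (j : ℝ) * (T ^ b / 5) ≤ T := by linarith
      have h33 : 0 ≤ (j:ℝ) * (T ^ b / 5) := by positivity
      have h4 := hlt T hTT1 (T + j * (T ^ b / 5)) (by linarith) (by linarith)
      have h5 : T + j * (T ^ b / 5) + T ^ b / 5 = T + (j + 1) * (T ^ b / 5) := by ring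
      rw [h5] at h4
      have h6 := ih h3
      omega
  obtain ⟨j, hj⟩ : ∃ j : ℕ, j = ⌊T ^ (a - b)⌋₊ := ⟨_, rfl⟩
  have hj1 : (j : ℝ) ≤ T ^ (a - b) := by rw [hj]; exact Nat.floor_le (by positivity)
  have hj2 : T ^ (a - b) < j + 1 := by rw [hj]; exact Nat.lt_floor_add_one _
  have hjT : (j : ℝ) * (T ^ b / 5) ≤ T ^ a := by
    calc (j : ℝ) * (T ^ b / 5) ≤ T ^ (a - b) * (T ^ b / 5) :=
          mul_le_mul_of_nonneg_right hj1 (by positivity)
      _ = T ^ a / 5 := by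
          rw [← mul_div_assoc, ← Real.rpow_add hTpos]
          congr 2
          ring
      _ ≤ T ^ a := by
          have : 0 < T ^ a := Real.rpow_pos_of_pos hTpos _
          linarith
  have h7 := hind j (hjT.trans hTa)
  have h8 : zeroCount (T + j * (T ^ b / 5)) ≤ zeroCount (T + T ^ a) :=
    zeroCount_mono (by linarith)
  have h9 : (zeroCount T : ℝ) + j ≤ zeroCount (T + T ^ a) := by exact_mod_cast h7.trans h8
  -- the count up to `T`
  have h10 : (zeroCount T : ℝ) ^ a' ≤ T ^ (a' + b / 2) := by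
    calc (zeroCount T : ℝ) ^ a' ≤ (T * Real.log T) ^ a' :=
          Real.rpow_le_rpow (Nat.cast_nonneg _) (hzc T hTT2).1 ha'.le
      _ = T ^ a' * Real.log T ^ a' := Real.mul_rpow hTpos.le hL0.le
      _ ≤ T ^ a' * T ^ (b / 2) := mul_le_mul_of_nonneg_left s1 (by positivity)
      _ = _ := (Real.rpow_add hTpos _ _).symm
  have h11 : 4 * T ^ (a' + b / 2) ≤ T ^ (a - b) := by
    have h12 : T ^ (a - b) = T ^ (b / 2) * T ^ (a' + b / 2) := by
      rw [← Real.rpow_add hTpos]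
      congr 1
      rw [hb]
      ring
    rw [h12]
    exact mul_le_mul_of_nonneg_right s3 (by positivity)
  linarith

/-- **A positive proportion of the gaps in `[T, T + H]`, `H ≥ T ^ a`, is below
`1 / (1 + a) + ε`.** -/
theorem pos_height (hRH : RiemannHypothesis) {a ε : ℝ} (ha : 0 < a) (ha1 : a ≤ 1) (hε : 0 < ε) :
    ∃ κ : ℝ, 0 < κ ∧ ∃ T0 : ℝ, ∀ T H : ℝ, T0 ≤ T → T ^ a ≤ H →
      κ * ((zeroCount (T + H) : ℝ) - zeroCount T) ≤
        ({n ∈ Finset.Ioo (zeroCount T) (zeroCount (T + H)) |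
          gap n < 1 / (1 + a) + ε}.card : ℝ) := by
  obtain ⟨a', ha'⟩ : ∃ a' : ℝ, a' = max (a / 2) (a - ε / 4) := ⟨_, rfl⟩
  have h0 : 0 < a' := by rw [ha']; exact lt_max_of_lt_left (by linarith)
  have h1 : a' < a := by rw [ha']; exact max_lt (by linarith) (by linarith)
  have h2 : a - ε / 4 ≤ a' := by rw [ha']; exact le_max_right _ _
  have h3 : 1 / (1 + a') ≤ 1 / (1 + a) + ε / 4 := by
    have e1 : 0 < 1 + a := by linarith
    have e2 : 1 - ε / 4 ≤ 1 / (1 + a) * (1 + a') := by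
      rw [div_mul_eq_mul_div, one_mul, le_div_iff₀ e1]
      nlinarith
    rw [div_le_iff₀ (by linarith), add_mul]
    nlinarith
  obtain ⟨κ, hκ, N0, h⟩ := pos_index hRH (a := a') (ε := ε / 2) h0 (by linarith) (by linarith)
  obtain ⟨T1, hT1⟩ := many_zeros h0 h1 ha1
  obtain ⟨C, T2, hC, hzc⟩ := zc_short
  obtain ⟨T3, hT3⟩ := exists_nat_ge (max (max T1 T2) (max 1 (N0 : ℝ)) + 1)
  refine ⟨κ / 2, by positivity, T3, fun T H hT hH => ?_⟩
  have hTT : max (max T1 T2) (max 1 (N0 : ℝ)) + 1 ≤ T := hT3.trans hT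
  have hTT1 : T1 ≤ T := by
    have := (le_max_left T1 T2).trans (le_max_left _ (max 1 (N0 : ℝ)))
    linarith
  have hTT2 : T2 ≤ T := by
    have := (le_max_right T1 T2).trans (le_max_left _ (max 1 (N0 : ℝ)))
    linarith
  have hTN : (N0 : ℝ) ≤ T := by
    have := (le_max_right 1 (N0 : ℝ)).trans (le_max_right (max T1 T2) _)
    linarith
  have g1 := hT1 T hTT1
  obtain ⟨N, hN⟩ : ∃ N : ℕ, N = zeroCount T := ⟨_, rfl⟩
  have g2 : zeroCount (T + T ^ a) ≤ zeroCount (T + H) := zeroCount_mono (by linarith)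
  have g2' : (zeroCount (T + T ^ a) : ℝ) ≤ zeroCount (T + H) := by exact_mod_cast g2
  have g3 : (0:ℝ) ≤ (zeroCount T : ℝ) ^ a' := Real.rpow_nonneg (Nat.cast_nonneg _) _
  have g4 : zeroCount T + 2 ≤ zeroCount (T + H) := by
    have : (zeroCount T : ℝ) + 2 ≤ zeroCount (T + H) := by linarith
    exact_mod_cast this
  obtain ⟨M, hM⟩ : ∃ M : ℕ, M = zeroCount (T + H) - zeroCount T - 1 := ⟨_, rfl⟩
  have hM2 : zeroCount (T + H) = N + M + 1 := by omega
  have hM3 : (zeroCount (T + H) : ℝ) = N + M + 1 := by exact_mod_cast hM2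
  have hMN : (N : ℝ) ^ a' ≤ M := by
    rw [hN]
    rw [hN] at hM3
    linarith
  have hN0 : N0 ≤ N := by
    have g5 : T ≤ zeroCount (T - 1) := (hzc T hTT2).2.1
    have g6 : zeroCount (T - 1) ≤ N := by rw [hN]; exact zeroCount_mono (by linarith)
    have g7 : (zeroCount (T - 1) : ℝ) ≤ N := by exact_mod_cast g6
    exact_mod_cast hTN.trans (g5.trans g7)
  have g8 := h N M hN0 hMN
  have hM1 : (1:ℝ) ≤ M := by
    have : 1 ≤ M := by omega
    exact_mod_cast this
  have g9 : ({n ∈ Finset.Ioc N (N + M) | gap n < 1 / (1 + a') + ε / 2}.card : ℝ) ≤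
      ({n ∈ Finset.Ioo (zeroCount T) (zeroCount (T + H)) | gap n < 1 / (1 + a) + ε}.card : ℝ) := by
    rw [Nat.cast_le]
    apply Finset.card_le_card
    intro n hn
    rw [Finset.mem_filter, Finset.mem_Ioc] at hn
    rw [Finset.mem_filter, Finset.mem_Ioo]
    exact ⟨⟨by omega, by omega⟩, by linarith [hn.2]⟩
  refine le_trans ?_ (g8.trans g9)
  rw [hM3, ← hN]
  have : 0 ≤ κ * ((M : ℝ) - 1) := mul_nonneg hκ.le (by linarith)
  linarith

end Pool.Agent.ShortPos
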