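import Pool.Agent.ZGap.Half.ExpMom
import Pool.Agent.ZGap.PS.Poly

/-!
# Exponential moments over short intervals
-/

namespace Pool.Agent.ShortPos

open Complex MeasureTheory Set Pool.Agent.Hadamard Pool.Agent.DirPoly Pool.Agent.ZGap
open Pool.Agent.ZGap.Res Pool.Agent.HalfGap

/-- Moments of the prime polynomials over short intervals. -/
lemma PP_moment_short {T : ℝ} (hT : Real.exp 4 ≤ T) {b k : ℕ} (hb : 1 ≤ b) (hk4 : 4 ≤ k)
    (hkL : 256 * ((b * k : ℕ) : ℝ) ≤ Real.log T) {y H : ℝ} (hH : T ^ (1 / (b : ℝ)) ≤ H) :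
    ∫ t in y..(y + H), (‖HalfGap.PP T (b * k) t‖ / Real.log T) ^ (2 * k) ≤
      (5 / 2 * Real.pi * H) * (6 ^ k / (k.factorial : ℝ)) := by
  have hT0 : 0 < T := (Real.exp_pos _).trans_le hT
  have hHpos : 0 < H := (Real.rpow_pos_of_pos hT0 _).trans_le hH
  set L := Real.log T with hL
  have hbr : (1 : ℝ) ≤ b := by exact_mod_cast hb
  have hkr : (4 : ℝ) ≤ k := by exact_mod_cast hk4
  have hk0 : (0 : ℝ) < k := by linarith
  have hbk : (4 : ℝ) ≤ ((b * k : ℕ) : ℝ) := by push_cast; nlinarith
  have hbk0 : (0 : ℝ) < ((b * k : ℕ) : ℝ) := by linarith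
  have hL0 : 0 < L := by linarith
  set D := L / ((b * k : ℕ) : ℝ) with hD
  set δ := 64 * ((b * k : ℕ) : ℝ) / L with hδ
  have hδ0 : 0 < δ := by positivity
  have hD256 : 256 ≤ D := by rw [hD, le_div_iff₀ hbk0]; exact hkL
  have hD0 : 0 < D := by linarith
  have hDk : D ≤ L / k := by
    rw [hD]
    apply div_le_div_of_nonneg_left hL0.le hk0
    push_cast
    nlinarith
  set x := ⌊Real.exp D⌋₊ with hx
  have hexpD : 2 ≤ Real.exp D := by
    have := Real.add_one_le_exp D; linarith
  have hx2 : 2 ≤ x := by rw [hx]; exact Nat.le_floor (by exact_mod_cast hexpD)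
  have hxle : (x : ℝ) ≤ Real.exp D := Nat.floor_le (Real.exp_pos D).le
  have hlogx : Real.log x ≤ D := by
    rw [Real.log_le_iff_le_exp (by exact_mod_cast (by omega : 0 < x))]
    exact hxle
  have hlogx0 : 0 ≤ Real.log x := Real.log_nonneg (by exact_mod_cast (by omega : 1 ≤ x))
  have hxk : (x : ℝ) ^ k ≤ H := by
    calc (x : ℝ) ^ k ≤ Real.exp D ^ k := by gcongr
      _ = Real.exp (L * (1 / (b : ℝ))) := by
          rw [← Real.exp_nat_mul, hD]
          congr 1
          push_cast
          field_simp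
      _ = T ^ (1 / (b : ℝ)) := by rw [Real.rpow_def_of_pos hT0, hL]
      _ ≤ H := hH
  have h1 := primePoly_short (H := H) (B := 1) hHpos hx2 hxk
    (fun n => bkc δ D (Real.log n)) (fun n => norm_bkc_le hδ0.le hD0 _) y
  have h6 : ∫ t in y..(y + H), (‖HalfGap.PP T (b * k) t‖ / L) ^ (2 * k) =
      (1 / L ^ (2 * k)) * ∫ t in y..(y + H),
        ‖primePoly (fun n => bkc δ D (Real.log n)) x t‖ ^ (2 * k) := by
    rw [← intervalIntegral.integral_const_mul]
    refine intervalIntegral.integral_congr fun t _ => ?_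
    beta_reduce
    rw [div_pow]
    have : HalfGap.PP T (b * k) t = primePoly (fun n => bkc δ D (Real.log n)) x t := rfl
    rw [this]
    ring
  rw [h6]
  have h7 : (6 * 1 ^ 2 * Real.log x ^ 2) ^ k ≤ (6 * (L / k) ^ 2) ^ k := by
    have : Real.log x ≤ L / k := hlogx.trans hDk
    gcongr
    linarith
  have h8 : (k.factorial : ℝ) ≤ (k : ℝ) ^ k := by exact_mod_cast Nat.factorial_le_pow k
  have hf0 : (0 : ℝ) < k.factorial := by exact_mod_cast Nat.factorial_pos k
  calc (1 / L ^ (2 * k)) * ∫ t in y..(y + H),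
        ‖primePoly (fun n => bkc δ D (Real.log n)) x t‖ ^ (2 * k) ≤
      (1 / L ^ (2 * k)) * (5 / 2 * Real.pi * H *
        (k.factorial * (6 * (L / k) ^ 2) ^ k)) := by
        have := Real.pi_pos
        gcongr
        refine h1.trans ?_
        gcongr
    _ = (5 / 2 * Real.pi * H) * (6 ^ k * (k.factorial / ((k : ℝ) ^ k * (k : ℝ) ^ k))) := by
        rw [mul_pow, div_pow, div_pow, ← pow_mul, ← pow_mul]
        have e1 : L ^ (2 * k) ≠ 0 := by positivity
        have e2 : (k : ℝ) ^ (2 * k) = (k : ℝ) ^ k * (k : ℝ) ^ k := by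
          rw [← pow_add]; congr 1; ring
        rw [e2]
        field_simp
    _ ≤ _ := by
        have := Real.pi_pos
        gcongr
        rw [div_eq_mul_one_div (6 ^ k : ℝ)]
        apply mul_le_mul_of_nonneg_left _ (by positivity)
        rw [div_le_div_iff₀ (by positivity) hf0, one_mul]
        exact mul_le_mul h8 h8 hf0.le (by positivity)

/-- **Exponential moments over every interval of length `H ≥ T ^ (1 / b)`** (RH). -/
theorem exp_moment_short (hRH : RiemannHypothesis) {b : ℕ} (hb : 1 ≤ b) (a : ℝ) (ha : 0 < a) :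
    ∃ C T0 : ℝ, 0 < C ∧ ∀ T, T0 ≤ T → ∀ y H : ℝ, T / 2 ≤ y → y + H ≤ 3 * T →
      T ^ (1 / (b : ℝ)) ≤ H →
      ∫ t in y..(y + H), Real.exp (a * (Res.FM.W1 T t + |D1 T t|)) ≤ C * H := by
  obtain ⟨C0, hC0, hXX⟩ := XX_le hRH
  have hbr : (1 : ℝ) ≤ b := by exact_mod_cast hb
  set C := 256 * b * C0 with hC
  have hCpos : 0 < C := by positivity
  refine ⟨Real.exp (a * (C * 4)) + (5 / 2 * Real.pi) * (Real.exp (a * C) *
    Real.exp (6 * Real.exp (a * C))), Real.exp (1024 * b), by positivity,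
    fun T hT y H hy hyH hH => ?_⟩
  have hT0 : 0 < T := (Real.exp_pos _).trans_le hT
  have hHpos : 0 < H := (Real.rpow_pos_of_pos hT0 _).trans_le hH
  set L := Real.log T with hL
  have hL1024 : 1024 * b ≤ L := by rw [hL, Real.le_log_iff_exp_le hT0]; exact hT
  have hL0 : 0 < L := by nlinarith
  have hL1 : 1 ≤ L := by nlinarith
  have hT4 : Real.exp 4 ≤ T := (Real.exp_le_exp.mpr (by nlinarith)).trans hT
  have hXc := XX_continuous hRH (T := T) hL1
  have hEc : Continuous (fun t => Real.exp (a * (Res.FM.W1 T t + |D1 T t|))) :=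
    Real.continuous_exp.comp (hXc.const_mul a)
  set m := ⌊L / (256 * b)⌋₊ with hm
  have hm4 : 4 ≤ m := by
    rw [hm]
    apply Nat.le_floor
    push_cast
    rw [le_div_iff₀ (by positivity)]
    linarith
  have hmL : (m : ℝ) ≤ L / (256 * b) := Nat.floor_le (by positivity)
  have hmL2 : L / (256 * b) < m + 1 := Nat.lt_floor_add_one _
  have hkL : ∀ k : ℕ, k < m + 1 → 256 * ((b * k : ℕ) : ℝ) ≤ L := by
    intro k hk
    have h1 : (k : ℝ) ≤ m := by exact_mod_cast (by omega : k ≤ m)
    have h2 : (k : ℝ) ≤ L / (256 * b) := h1.trans hmL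
    rw [le_div_iff₀ (by positivity)] at h2
    push_cast
    linarith
  have hpt : ∀ t ∈ Icc y (y + H), Real.exp (a * (Res.FM.W1 T t + |D1 T t|)) ≤
      Real.exp (a * (C * 4)) + ∑ k ∈ Finset.Ico 4 (m + 1),
        Real.exp (a * (C * (k + 1))) * (‖HalfGap.PP T (b * k) t‖ / L) ^ (2 * k) := by
    intro t ht
    obtain ⟨h1, h2⟩ := hXX T hT4 t (hy.trans ht.1) (ht.2.trans hyH)
    refine exp_le_sum (X := XX T t) ha (fun k => ‖HalfGap.PP T (b * k) t‖ / L)
      (fun k => by positivity) (m + 1) (by omega) (fun k hk hkm hp => ?_) ?_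
    · rw [div_le_one hL0] at hp
      have h3 := h2 (b * k) (by nlinarith) (hkL k hkm) hp
      have : C0 * ((b * k : ℕ) : ℝ) ≤ C * k := by
        rw [hC]
        push_cast
        have h5 : (0:ℝ) ≤ k := by positivity
        have h6 : 0 ≤ C0 * (b * k) := by positivity
        nlinarith
      linarith
    · refine h1.trans ?_
      rw [hC]
      push_cast
      have : L ≤ 256 * b * (m + 1) := by
        rw [div_lt_iff₀ (by positivity)] at hmL2
        linarith
      calc C0 * L ≤ C0 * (256 * b * (m + 1)) := by gcongr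
        _ = _ := by ring
  have hPc : ∀ k : ℕ, Continuous (fun t => Real.exp (a * (C * (k + 1))) *
      (‖HalfGap.PP T (b * k) t‖ / L) ^ (2 * k)) := fun k =>
    (((HalfGap.PP_continuous T (b * k)).norm.div_const L).pow _).const_mul _
  have hRc : Continuous (fun t => Real.exp (a * (C * 4)) + ∑ k ∈ Finset.Ico 4 (m + 1),
        Real.exp (a * (C * (k + 1))) * (‖HalfGap.PP T (b * k) t‖ / L) ^ (2 * k)) :=
    continuous_const.add (continuous_finsetSum _ fun k _ => hPc k)
  have h3 := intervalIntegral.integral_mono_on (μ := volume) (a := y) (b := y + H) (by linarith)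
    (hEc.intervalIntegrable _ _) (hRc.intervalIntegrable _ _) hpt
  refine h3.trans ?_
  have hSc : Continuous (fun t => ∑ k ∈ Finset.Ico 4 (m + 1),
        Real.exp (a * (C * (k + 1))) * (‖HalfGap.PP T (b * k) t‖ / L) ^ (2 * k)) :=
    continuous_finsetSum _ fun k _ => hPc k
  have hcc : IntervalIntegrable (fun _ : ℝ => Real.exp (a * (C * 4))) volume y (y + H) :=
    continuous_const.intervalIntegrable _ _
  rw [intervalIntegral.integral_add hcc (hSc.intervalIntegrable _ _),
    intervalIntegral.integral_const,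
    intervalIntegral.integral_finsetSum fun k _ => (hPc k).intervalIntegrable _ _]
  have h4 : ∀ k ∈ Finset.Ico 4 (m + 1), ∫ t in y..(y + H), Real.exp (a * (C * (k + 1))) *
      (‖HalfGap.PP T (b * k) t‖ / L) ^ (2 * k) ≤ (5 / 2 * Real.pi * H) * (Real.exp (a * C) *
        ((6 * Real.exp (a * C)) ^ k / k.factorial)) := by
    intro k hk
    rw [Finset.mem_Ico] at hk
    rw [intervalIntegral.integral_const_mul]
    have h5 := PP_moment_short hT4 hb hk.1 (hkL k hk.2) (y := y) hH
    have e1 : Real.exp (a * (C * (k + 1))) = Real.exp (a * C) * Real.exp (a * C) ^ k := by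
      rw [← Real.exp_nat_mul, ← Real.exp_add]
      congr 1; ring
    rw [e1]
    calc _ ≤ Real.exp (a * C) * Real.exp (a * C) ^ k *
        ((5 / 2 * Real.pi * H) * (6 ^ k / (k.factorial : ℝ))) := by gcongr
      _ = _ := by rw [mul_pow]; ring
  have h6 := Finset.sum_le_sum h4
  have h7 : ∑ k ∈ Finset.Ico 4 (m + 1), (5 / 2 * Real.pi * H) * (Real.exp (a * C) *
        ((6 * Real.exp (a * C)) ^ k / k.factorial)) ≤ (5 / 2 * Real.pi * H) *
        (Real.exp (a * C) * Real.exp (6 * Real.exp (a * C))) := by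
    rw [← Finset.mul_sum, ← Finset.mul_sum]
    have h8 : ∑ k ∈ Finset.Ico 4 (m + 1), ((6 * Real.exp (a * C)) ^ k / (k.factorial : ℝ)) ≤
        Real.exp (6 * Real.exp (a * C)) := by
      refine le_trans ?_ (Real.sum_le_exp_of_nonneg (x := 6 * Real.exp (a * C)) (by positivity)
        (m + 1))
      refine Finset.sum_le_sum_of_subset_of_nonneg ?_ fun k _ _ => by positivity
      intro k hk
      rw [Finset.mem_Ico] at hk
      rw [Finset.mem_range]
      exact hk.2
    have := Real.pi_pos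
    gcongr
  rw [smul_eq_mul]
  calc _ ≤ (y + H - y) * Real.exp (a * (C * 4)) + (5 / 2 * Real.pi * H) *
        (Real.exp (a * C) * Real.exp (6 * Real.exp (a * C))) := by linarith
    _ = _ := by ring

end Pool.Agent.ShortPos
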