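import Mathlib

/-!
# Windows which meet a small set in a large part are rare
-/

namespace Pool.Agent.ShortPos

open MeasureTheory Set

lemma volume_window {B : Set ℝ} (hB : MeasurableSet B) (H y : ℝ) :
    volume (B ∩ Icc y (y + H)) = ∫⁻ t : ℝ, (B.indicator (fun _ => (1 : ENNReal)) t) *
        ({p : ℝ × ℝ | p.1 ≤ p.2 ∧ p.2 ≤ p.1 + H}.indicator (fun _ => (1 : ENNReal)) (y, t)) := by
  have e : ∀ t : ℝ, (B.indicator (fun _ => (1 : ENNReal)) t) *
      ({p : ℝ × ℝ | p.1 ≤ p.2 ∧ p.2 ≤ p.1 + H}.indicator (fun _ => (1 : ENNReal)) (y, t)) =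
      (B ∩ Icc y (y + H)).indicator (fun _ => (1 : ENNReal)) t := by
    intro t
    by_cases h1 : t ∈ B <;> by_cases h2 : t ∈ Icc y (y + H) <;>
      simp_all [Set.indicator, Set.mem_Icc]
  simp_rw [e]
  rw [lintegral_indicator (hB.inter measurableSet_Icc)]
  simp

lemma measurable_window_kernel {B : Set ℝ} (hB : MeasurableSet B) (H : ℝ) :
    Measurable fun p : ℝ × ℝ => (B.indicator (fun _ => (1 : ENNReal)) p.2) *
        ({p : ℝ × ℝ | p.1 ≤ p.2 ∧ p.2 ≤ p.1 + H}.indicator (fun _ => (1 : ENNReal)) p) := by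
  have hm : MeasurableSet {p : ℝ × ℝ | p.1 ≤ p.2 ∧ p.2 ≤ p.1 + H} :=
    (measurableSet_le measurable_fst measurable_snd).inter
      (measurableSet_le measurable_snd (measurable_fst.add_const H))
  refine Measurable.mul ?_ (measurable_const.indicator hm)
  exact (measurable_const.indicator hB).comp measurable_snd

lemma measurable_window {B : Set ℝ} (hB : MeasurableSet B) (H : ℝ) :
    Measurable fun y : ℝ => volume (B ∩ Icc y (y + H)) := by
  simp_rw [volume_window hB]
  exact (measurable_window_kernel hB H).lintegral_prod_right'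

lemma lintegral_window {B : Set ℝ} (hB : MeasurableSet B) (H : ℝ) :
    ∫⁻ y : ℝ, volume (B ∩ Icc y (y + H)) = ENNReal.ofReal H * volume B := by
  simp_rw [volume_window hB]
  rw [lintegral_lintegral_swap]
  · have h2 : ∀ t : ℝ, ∫⁻ y : ℝ, (B.indicator (fun _ => (1 : ENNReal)) t) *
        ({p : ℝ × ℝ | p.1 ≤ p.2 ∧ p.2 ≤ p.1 + H}.indicator (fun _ => (1 : ENNReal)) (y, t)) =
        (B.indicator (fun _ => (1 : ENNReal)) t) * ENNReal.ofReal H := by
      intro t
      have e : ∀ y : ℝ, {p : ℝ × ℝ | p.1 ≤ p.2 ∧ p.2 ≤ p.1 + H}.indicator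
          (fun _ => (1 : ENNReal)) (y, t) = (Icc (t - H) t).indicator (fun _ => (1 : ENNReal)) y := by
        intro y
        by_cases h2 : y ≤ t ∧ t ≤ y + H
        · have h3 : y ∈ Icc (t - H) t := ⟨by linarith [h2.2], h2.1⟩
          simp [Set.indicator, h2, h3]
        · have h3 : y ∉ Icc (t - H) t := fun h => h2 ⟨h.2, by linarith [h.1]⟩
          simp only [Set.indicator, Set.mem_ofPred_eq, h2, if_false, h3]
      simp_rw [e]
      rw [lintegral_const_mul' _ _ (by
        by_cases h : t ∈ B <;> simp [h])]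
      rw [lintegral_indicator measurableSet_Icc]
      simp
    simp_rw [h2]
    rw [lintegral_mul_const' _ _ ENNReal.ofReal_ne_top, lintegral_indicator hB]
    simp [mul_comm]
  · exact (measurable_window_kernel hB H).aemeasurable

/-- Markov's inequality for the windows `[y, y + H]`. -/
theorem cheb_window {B : Set ℝ} (hB : MeasurableSet B) {H : ℝ} (hH : 0 < H) :
    volume {y : ℝ | H / 8 < volume.real (B ∩ Icc y (y + H))} ≤ 8 * volume B := by
  have h0 := lintegral_window hB H
  have hsub : {y : ℝ | H / 8 < volume.real (B ∩ Icc y (y + H))} ⊆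
      {y : ℝ | ENNReal.ofReal (H / 8) ≤ volume (B ∩ Icc y (y + H))} := by
    intro y hy
    have hy' : H / 8 < (volume (B ∩ Icc y (y + H))).toReal := hy
    exact (ENNReal.ofReal_le_ofReal hy'.le).trans ENNReal.ofReal_toReal_le
  have h1 := meas_ge_le_lintegral_div (μ := volume) (f := fun y : ℝ => volume (B ∩ Icc y (y + H)))
    (ε := ENNReal.ofReal (H / 8)) ?_ ?_ ENNReal.ofReal_ne_top
  · refine (measure_mono hsub).trans (h1.trans ?_)
    rw [h0]
    rw [ENNReal.div_le_iff (by simpa using hH) ENNReal.ofReal_ne_top]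
    have e : ENNReal.ofReal H = 8 * ENNReal.ofReal (H / 8) := by
      rw [show (8 : ENNReal) = ENNReal.ofReal 8 by norm_num,
        ← ENNReal.ofReal_mul (by norm_num)]
      congr 1
      ring
    rw [e]
    rw [mul_right_comm]
  · exact (measurable_window hB H).aemeasurable
  · simpa using hH

end Pool.Agent.ShortPos
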