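import Pool.Agent.ZGap.Half.Cover
import Pool.Agent.ZGap.Res.Crowd
import Pool.Agent.ZetaGaps.RvMCount

/-!
# From the measure of the bad set in a short window to a positive proportion of small gaps
-/

set_option autoImplicit false

namespace Pool.Agent.ShortPos

open MeasureTheory Set Filter Pool.Agent.Hadamard Pool.Agent.ZetaGaps Pool.Agent.ZGap.Res
open Pool.Agent.HalfGap
open scoped Topology

/-- A crowded window of radius `w` at height at most `4 T` contains a small gap. -/
lemma small_gap_of_crowd {c d T w t : ℝ} (hL0 : 0 < Real.log T) (hc : 0 < c)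
    (hw : w = Real.pi * c / Real.log T) (hlog : c * 4 / (d - c) ≤ Real.log T) (hcd : c < d)
    (hT : 0 < T) (ht : t + w ≤ 4 * T)
    (hcr : zeroCount (t - w) + 2 ≤ zeroCount (t + w)) :
    t - w < ordinate (zeroCount (t - w) + 1) ∧ ordinate (zeroCount (t - w) + 1) ≤ t + w ∧
      gap (zeroCount (t - w) + 1) < d := by
  have hpi := Real.pi_pos
  set L := Real.log T with hL
  have hw0 : 0 < w := by rw [hw]; positivity
  obtain ⟨n, hn⟩ : ∃ n : ℕ, n = zeroCount (t - w) + 1 := ⟨_, rfl⟩
  rw [← hn]
  have hn1 : 1 ≤ n := by omega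
  have hl4 : Real.log 4 ≤ 2 := by
    have : Real.log 4 = 2 * Real.log 2 := by
      rw [show (4:ℝ) = 2 ^ 2 by norm_num, Real.log_pow]; norm_num
    have := Real.log_two_lt_d9
    linarith
  have h1 : t - w < ordinate n := by
    by_contra hcon
    push Not at hcon
    have := (le_zeroCount_iff (zeroCount_unbounded n) hn1).mpr hcon
    omega
  have h2 : ordinate (n + 1) ≤ t + w :=
    (le_zeroCount_iff (zeroCount_unbounded (n + 1)) (by omega)).mp (by omega)
  have h3 := ordinate_mono (zeroCount_unbounded (n + 1)) hn1 (show n ≤ n + 1 by omega)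
  have h5 := gap_le hn1
  have hpos := ordinate_pos (zeroCount_unbounded (n + 1)) (show 1 ≤ n + 1 by omega)
  have h6 : Real.log (ordinate (n + 1)) ≤ L + 2 := by
    have h7 : ordinate (n + 1) ≤ 4 * T := by linarith
    have h8 := Real.log_le_log hpos h7
    rw [Real.log_mul (by norm_num) hT.ne'] at h8
    linarith
  refine ⟨h1, by linarith, ?_⟩
  have e1 : (ordinate (n + 1) - ordinate n) * (Real.log (ordinate (n + 1)) + 1) ≤
      2 * w * (L + 3) := by
    have e2 : 0 ≤ ordinate (n + 1) - ordinate n := by linarith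
    calc _ ≤ (ordinate (n + 1) - ordinate n) * (L + 3) := by
          apply mul_le_mul_of_nonneg_left (by linarith) e2
      _ ≤ _ := by
          apply mul_le_mul_of_nonneg_right (by linarith) (by linarith)
  have e3 : gap n ≤ 2 * w * (L + 3) / (2 * Real.pi) := by
    refine h5.trans ?_
    exact div_le_div_of_nonneg_right e1 (by positivity)
  have e4 : 2 * w * (L + 3) / (2 * Real.pi) = c + c * 3 / L := by
    rw [hw]
    field_simp
  have e5 : c * 4 / L ≤ d - c := by
    rw [div_le_iff₀ (by linarith)] at hlog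
    rw [div_le_iff₀ hL0]
    linarith
  have e6 : c * 3 / L < c * 4 / L := by
    apply div_lt_div_of_pos_right _ hL0
    linarith
  linarith

/-- **(C1)** From the bad set in a window to the number of small gaps in a slightly larger one. -/
theorem count_of_EE {τ c d κ0 : ℝ} (hτ : 0 < τ) (hτc : τ < c) (hcd : c < d) (hκ0 : 0 < κ0) :
    ∃ κ : ℝ, 0 < κ ∧ ∃ T0 : ℝ, ∀ T : ℝ, T0 ≤ T → ∀ y H : ℝ, T ≤ y → y + H ≤ 2 * T →
      κ0 * H ≤ volume.real (EE (2 * Real.pi * τ / Real.log T) ∩ Icc y (y + H)) →
      κ * (H * Real.log T) ≤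
        ({n ∈ Finset.Ioo (zeroCount (y - 1)) (zeroCount (y + H + 1)) | gap n < d}.card : ℝ) := by
  have hpi := Real.pi_pos
  have hc : 0 < c := by linarith
  have hd : 0 < c - τ := by linarith
  have hdc : 0 < d - c := by linarith
  have ev1 : ∀ᶠ T : ℝ in atTop, max (max 1 (8 * Real.pi * c)) (c * 4 / (d - c)) ≤ Real.log T :=
    Real.tendsto_log_atTop.eventually_ge_atTop _
  obtain ⟨T0, hT0⟩ := eventually_atTop.mp (ev1.and (eventually_ge_atTop 4))
  refine ⟨κ0 / (4 * c / (c - τ)) / (2 * (Real.pi * c)), by positivity, T0,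
    fun T hT y H hy1 hy2 hV => ?_⟩
  obtain ⟨s1, s4⟩ := hT0 T hT
  have hTpos : 0 < T := by linarith
  have hL1 : 1 ≤ Real.log T := (le_max_left _ _).trans ((le_max_left _ _).trans s1)
  have hL8 : 8 * Real.pi * c ≤ Real.log T := (le_max_right _ _).trans ((le_max_left _ _).trans s1)
  have hlog : c * 4 / (d - c) ≤ Real.log T := (le_max_right _ _).trans s1
  set L := Real.log T with hLdef
  have hLpos : 0 < L := by linarith
  set α := 2 * Real.pi * τ / L with hα
  set β := 2 * Real.pi * c / L with hβ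
  have hα0 : 0 < α := by positivity
  have hαβ : α < β := by
    rw [hα, hβ]
    apply div_lt_div_of_pos_right _ hLpos
    have : 0 < 2 * Real.pi := by positivity
    nlinarith
  have hβ2 : β / 2 = Real.pi * c / L := by rw [hβ]; ring
  have hβle : 4 * β ≤ 1 := by
    rw [hβ, mul_div_assoc', div_le_one hLpos]
    linarith
  have hβpos : 0 < β := hα0.trans hαβ
  have h1 := EE_le_crowd (a := y) (b := y + H) hα0 hαβ (by linarith)
    (measurableSet_Icc.inter (measurableSet_crowd (β / 2)))
  set w := β / 2 with hw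
  have hw0 : 0 < w := by positivity
  set A := {n ∈ Finset.Ioo (zeroCount (y - 1)) (zeroCount (y + H + 1)) | gap n < d} with hA
  have hcov : {u : ℝ | u ∈ Icc (y - 2 * β) (y + H + 2 * β) ∧
      zeroCount (u - w) + 2 ≤ zeroCount (u + w)} ⊆
      ⋃ n ∈ A, Set.Icc (ordinate n - w) (ordinate n + w) := by
    rintro t ⟨⟨ht1, ht2⟩, hcr⟩
    obtain ⟨g1, g2, g3⟩ := small_gap_of_crowd (c := c) (d := d) (T := T) (w := w) (t := t)
      hLpos hc hβ2 hlog hcd hTpos (by linarith) hcr
    simp only [Set.mem_iUnion, Set.mem_Icc, exists_prop]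
    refine ⟨zeroCount (t - w) + 1, ?_, by linarith, by linarith⟩
    rw [hA, Finset.mem_filter, Finset.mem_Ioo]
    have m1 : zeroCount (y - 1) ≤ zeroCount (t - w) := zeroCount_mono (by linarith)
    have m2 : zeroCount (t + w) ≤ zeroCount (y + H + 1) := zeroCount_mono (by linarith)
    exact ⟨⟨by omega, by omega⟩, g3⟩
  have h2 : volume.real {u : ℝ | u ∈ Icc (y - 2 * β) (y + H + 2 * β) ∧
      zeroCount (u - w) + 2 ≤ zeroCount (u + w)} ≤ A.card * (2 * w) := by
    have hfin : volume (⋃ n ∈ A, Set.Icc (ordinate n - w) (ordinate n + w)) ≠ ⊤ := by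
      refine ne_top_of_le_ne_top ?_ (measure_biUnion_finset_le A _)
      refine ENNReal.sum_ne_top.mpr fun n _ => ?_
      rw [Real.volume_Icc]; exact ENNReal.ofReal_ne_top
    refine (measureReal_mono hcov hfin).trans ?_
    refine (measureReal_biUnion_finset_le A _).trans ?_
    rw [← nsmul_eq_mul, ← Finset.sum_const]
    refine Finset.sum_le_sum fun n hn => ?_
    rw [Real.volume_real_Icc, max_eq_left (by linarith)]
    linarith
  have h4 : 4 * β / (β - α) = 4 * c / (c - τ) := by
    have : β - α = 2 * Real.pi / L * (c - τ) := by rw [hβ, hα]; ring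
    rw [this, hβ]
    have hd' : c - τ ≠ 0 := hd.ne'
    field_simp
  rw [h4] at h1
  have h5 : κ0 * H ≤ 4 * c / (c - τ) * (A.card * (2 * w)) :=
    hV.trans (h1.trans (mul_le_mul_of_nonneg_left h2 (by positivity)))
  have hwL : w * L = Real.pi * c := by rw [hβ2]; exact div_mul_cancel₀ _ hLpos.ne'
  have h6 : κ0 * H * L ≤ 4 * c / (c - τ) * (A.card * (2 * (Real.pi * c))) := by
    calc κ0 * H * L ≤ 4 * c / (c - τ) * (A.card * (2 * w)) * L :=
          mul_le_mul_of_nonneg_right h5 hLpos.le
      _ = 4 * c / (c - τ) * (A.card * (2 * (w * L))) := by ring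
      _ = _ := by rw [hwL]
  rw [div_mul_eq_mul_div, div_le_iff₀ (by positivity), div_mul_eq_mul_div,
    div_le_iff₀ (by positivity)]
  calc κ0 * (H * L) = κ0 * H * L := by ring
    _ ≤ _ := h6
    _ = _ := by ring

end Pool.Agent.ShortPos
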