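import Pool.Agent.ZGap.Half.NearDef
import Pool.Agent.ZGap.Half.GamB
import Pool.Agent.ZGap.Half.Holder
import Pool.Agent.ZGap.Half.FubG
import Pool.Agent.ZGap.Half.Off

/-!
# The near part as an integral; its mean square over the centre
-/

namespace Pool.Agent.ShortPos

open Complex MeasureTheory Set Pool.Agent.Hadamard Pool.Agent.HalfGap

/-- The Dirichlet polynomial of the near part. -/
noncomputable def DN {ι : Type*} (Q : Finset ι) (b : ι → ℂ) (w : ι → ℝ) (α dl : ℝ) (t : ℝ) : ℂ :=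
  ∑ q ∈ Q, b q * ∑ n ∈ Nr (w q) dl,
    gco α n * ((n:ℝ) ^ (-(1:ℝ) / 2) : ℝ) *
      Complex.exp (-((w q + Real.log n : ℝ) : ℂ) * (3 / 2 + t * I))

variable {ι : Type*} (Q : Finset ι) (b : ι → ℂ) (w : ι → ℝ)

lemma DN_continuous (α dl : ℝ) : Continuous (DN Q b w α dl) := by
  unfold DN
  fun_prop

theorem Near_eq_int (α H t0 U dl : ℝ) : Near Q b w α H t0 U dl =
    ∫ t in (t0 - U)..(t0 + U), Og H t0 (2 + t * I) * gam α (2 + t * I) * DN Q b w α dl t := by
  have hc : Continuous fun t : ℝ => Og H t0 (2 + t * I) * gam α (2 + t * I) :=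
    (continuous_Og_line H t0).mul (continuous_gam_line α)
  unfold Near DN
  have e1 : ∀ t : ℝ, Og H t0 (2 + t * I) * gam α (2 + t * I) *
      (∑ q ∈ Q, b q * ∑ n ∈ Nr (w q) dl, gco α n * ((n:ℝ) ^ (-(1:ℝ) / 2) : ℝ) *
        Complex.exp (-((w q + Real.log n : ℝ) : ℂ) * (3 / 2 + t * I))) =
      ∑ q ∈ Q, b q * ∑ n ∈ Nr (w q) dl, gco α n * ((n:ℝ) ^ (-(1:ℝ) / 2) : ℝ) *
        (Og H t0 (2 + t * I) * gam α (2 + t * I) *
          Complex.exp (-((w q + Real.log n : ℝ) : ℂ) * (3 / 2 + t * I))) := by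
    intro t
    rw [Finset.mul_sum]
    refine Finset.sum_congr rfl fun q _ => ?_
    rw [mul_left_comm, Finset.mul_sum]
    congr 1
    refine Finset.sum_congr rfl fun n _ => ?_
    ring
  simp_rw [e1]
  have hi : ∀ (q : ι) (n : ℕ), Continuous fun t : ℝ => Og H t0 (2 + t * I) * gam α (2 + t * I) *
      Complex.exp (-((w q + Real.log n : ℝ) : ℂ) * (3 / 2 + t * I)) := fun q n =>
    hc.mul (by fun_prop)
  rw [intervalIntegral.integral_finsetSum]
  · refine Finset.sum_congr rfl fun q _ => ?_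
    rw [intervalIntegral.integral_const_mul, intervalIntegral.integral_finsetSum]
    · congr 1
      refine Finset.sum_congr rfl fun n _ => ?_
      rw [intervalIntegral.integral_const_mul]
      rfl
    · intro n _
      exact ((hi q n).intervalIntegrable _ _).const_mul _
  · intro q _
    refine Continuous.intervalIntegrable ?_ _ _
    refine continuous_const.mul (continuous_finsetSum _ fun n _ => continuous_const.mul (hi q n))

/-- Pointwise mean square bound. -/
theorem Near_sq_le {α H t0 U T : ℝ} (dl : ℝ) (hα : 0 ≤ α) (hα1 : α ≤ 1) (hH : 1 ≤ H) (hU : 0 ≤ U)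
    (h1 : 1 ≤ T / 2) (h2 : T / 2 ≤ t0 - U) (h3 : t0 + U ≤ 3 * T) :
    ‖Near Q b w α H t0 U dl‖ ^ 2 ≤
      (4 * Real.exp 21) ^ 2 * (Real.sqrt (2 * Real.pi) * H) *
        ∫ t in Icc (T / 2) (3 * T), Real.exp (-(t - t0) ^ 2 / (2 * H ^ 2)) *
          ‖DN Q b w α dl t‖ ^ 2 := by
  set D := DN Q b w α dl with hD
  have hDc : Continuous D := DN_continuous Q b w α dl
  set e1 : ℝ → ℝ := fun t => Real.exp (-(t - t0) ^ 2 / (4 * H ^ 2)) with he1
  have he1c : Continuous e1 := by simp only [he1]; fun_prop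
  have hH0 : 0 < H := by linarith
  have e1sq : ∀ t, e1 t ^ 2 = Real.exp (-(t - t0) ^ 2 / (2 * H ^ 2)) := by
    intro t
    simp only [he1]
    rw [← Real.exp_nat_mul]
    congr 1
    push_cast
    field_simp
    ring
  have hle : t0 - U ≤ t0 + U := by linarith
  -- the pointwise bound of the weight
  have hpt : ∀ t ∈ Icc (t0 - U) (t0 + U), ‖Og H t0 (2 + t * I) * gam α (2 + t * I) * D t‖ ≤
      4 * Real.exp 21 * (e1 t * (e1 t * ‖D t‖)) := by
    intro t ht
    rw [norm_mul, norm_mul]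
    have b1 : ‖Og H t0 (2 + t * I)‖ ≤ Real.exp 7 * e1 t ^ 2 := by
      have h5 := norm_Og_le (t0 := t0) (x := 2) (y := t) hH (by simp; linarith)
      push_cast at h5
      refine h5.trans ?_
      rw [e1sq]
      gcongr
      rw [neg_div, neg_le_neg_iff]
      have h6 : 0 ≤ (t - t0) ^ 2 := sq_nonneg _
      gcongr
      nlinarith
    have b2 : ‖gam α (2 + t * I)‖ ≤ 4 * Real.exp 14 := by
      have h5 := GB.gam_bound hα (s := 2 + t * I) (by simp; linarith [ht.1])
      refine h5.trans ?_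
      gcongr
      linarith
    have e3 : Real.exp 21 = Real.exp 7 * Real.exp 14 := by rw [← Real.exp_add]; norm_num
    calc ‖Og H t0 (2 + t * I)‖ * ‖gam α (2 + t * I)‖ * ‖D t‖ ≤
          (Real.exp 7 * e1 t ^ 2) * (4 * Real.exp 14) * ‖D t‖ := by gcongr
      _ = _ := by rw [e3]; ring
  have hs : ‖Near Q b w α H t0 U dl‖ ≤ 4 * Real.exp 21 *
      ∫ t in Icc (T / 2) (3 * T), e1 t * (e1 t * ‖D t‖) := by
    rw [Near_eq_int, intervalIntegral.integral_of_le hle]
    have hi : IntegrableOn (fun t => 4 * Real.exp 21 * (e1 t * (e1 t * ‖D t‖)))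
        (Icc (T / 2) (3 * T)) :=
      (by fun_prop : Continuous fun t => 4 * Real.exp 21 * (e1 t * (e1 t * ‖D t‖))).integrableOn_Icc
    have hsub : Ioc (t0 - U) (t0 + U) ⊆ Icc (T / 2) (3 * T) := fun t ht =>
      ⟨by linarith [ht.1], by linarith [ht.2]⟩
    calc _ ≤ ∫ t in Ioc (t0 - U) (t0 + U), 4 * Real.exp 21 * (e1 t * (e1 t * ‖D t‖)) := by
          refine norm_integral_le_of_norm_le (hi.mono_set hsub) ?_
          exact (ae_restrict_iff' measurableSet_Ioc).mpr
            (Filter.Eventually.of_forall fun t ht => hpt t ⟨ht.1.le, ht.2⟩)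
      _ ≤ ∫ t in Icc (T / 2) (3 * T), 4 * Real.exp 21 * (e1 t * (e1 t * ‖D t‖)) := by
          refine setIntegral_mono_set hi (Filter.Eventually.of_forall fun t => ?_)
            hsub.eventuallyLE
          have : 0 ≤ e1 t := (Real.exp_pos _).le
          positivity
      _ = _ := by rw [integral_const_mul]
  have hcs := cs_sq (μ := volume.restrict (Icc (T / 2) (3 * T))) (f := e1)
    (g := fun t => e1 t * ‖D t‖) he1c.aestronglyMeasurable
    (he1c.mul hDc.norm).aestronglyMeasurable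
    ((he1c.pow 2).integrableOn_Icc) (((he1c.mul hDc.norm).pow 2).integrableOn_Icc)
  have hg1 : ∫ t in Icc (T / 2) (3 * T), e1 t ^ 2 ≤ Real.sqrt (2 * Real.pi) * H := by
    have h5 : ∀ t : ℝ, e1 t ^ 2 = Real.exp (-(t0 - t) ^ 2 / (2 * H ^ 2)) := by
      intro t
      rw [e1sq]
      congr 3
      ring
    simp_rw [h5]
    obtain ⟨i1, i2⟩ := gauss_total t0 hH0
    rw [← i2]
    exact setIntegral_le_integral i1 (Filter.Eventually.of_forall fun _ => (Real.exp_pos _).le)
  have hg2 : ∫ t in Icc (T / 2) (3 * T), (e1 t * ‖D t‖) ^ 2 =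
      ∫ t in Icc (T / 2) (3 * T), Real.exp (-(t - t0) ^ 2 / (2 * H ^ 2)) * ‖D t‖ ^ 2 := by
    refine integral_congr_ae (Filter.Eventually.of_forall fun t => ?_)
    simp only
    rw [mul_pow, e1sq]
  rw [hg2] at hcs
  have hI0 : 0 ≤ ∫ t in Icc (T / 2) (3 * T), e1 t * (e1 t * ‖D t‖) :=
    integral_nonneg fun t => by
      have : 0 ≤ e1 t := (Real.exp_pos _).le
      positivity
  have hJ0 : 0 ≤ ∫ t in Icc (T / 2) (3 * T), Real.exp (-(t - t0) ^ 2 / (2 * H ^ 2)) *
      ‖D t‖ ^ 2 := integral_nonneg fun t => by positivity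
  calc ‖Near Q b w α H t0 U dl‖ ^ 2 ≤
      (4 * Real.exp 21 * ∫ t in Icc (T / 2) (3 * T), e1 t * (e1 t * ‖D t‖)) ^ 2 :=
        pow_le_pow_left₀ (norm_nonneg _) hs 2
    _ = (4 * Real.exp 21) ^ 2 * (∫ t in Icc (T / 2) (3 * T), e1 t * (e1 t * ‖D t‖)) ^ 2 := by
        rw [mul_pow]
    _ ≤ (4 * Real.exp 21) ^ 2 * ((Real.sqrt (2 * Real.pi) * H) *
        ∫ t in Icc (T / 2) (3 * T), Real.exp (-(t - t0) ^ 2 / (2 * H ^ 2)) * ‖D t‖ ^ 2) := by
        gcongr
        exact hcs.trans (mul_le_mul_of_nonneg_right hg1 hJ0)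
    _ = _ := by ring

/-- The measure of the centres with a large near part. -/
theorem Near_large {α H U T V : ℝ} (dl : ℝ) (hα : 0 ≤ α) (hα1 : α ≤ 1) (hH : 1 ≤ H) (hU : 0 ≤ U)
    (h1 : 1 ≤ T / 2) (h2 : 2 * U ≤ T) (hV : 0 < V) :
    volume.real {t0 : ℝ | t0 ∈ Icc T (2 * T) ∧ V < ‖Near Q b w α H t0 U dl‖} ≤
      (4 * Real.exp 21) ^ 2 * (2 * Real.pi * H ^ 2) / V ^ 2 *
        ∫ t in (T / 2)..(3 * T), ‖DN Q b w α dl t‖ ^ 2 := by
  have hH0 : 0 < H := by linarith
  have hpi := Real.pi_pos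
  set D := DN Q b w α dl with hD
  have hDc : Continuous D := DN_continuous Q b w α dl
  set K : ℝ → ℝ → ℝ := fun t0 t => Real.exp (-(t - t0) ^ 2 / (2 * H ^ 2)) * ‖D t‖ ^ 2 with hK
  have hKc : Continuous (Function.uncurry K) := by
    simp only [hK, Function.uncurry_def]
    have : Continuous fun p : ℝ × ℝ => ‖D p.2‖ ^ 2 := (hDc.comp continuous_snd).norm.pow 2
    fun_prop
  have hint : Integrable (Function.uncurry K)
      ((volume.restrict (Icc T (2 * T))).prod (volume.restrict (Icc (T / 2) (3 * T)))) := by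
    rw [Measure.prod_restrict, ← Measure.volume_eq_prod]
    exact hKc.continuousOn.integrableOn_compact (isCompact_Icc.prod isCompact_Icc)
  set Φ : ℝ → ℝ := fun t0 => ∫ t in Icc (T / 2) (3 * T), K t0 t with hΦ
  have hΦi : Integrable Φ (volume.restrict (Icc T (2 * T))) := hint.integral_prod_left
  have hΦ0 : ∀ t0, 0 ≤ Φ t0 := fun t0 => integral_nonneg fun t => by
    simp only [hK]; positivity
  -- total
  have htot : ∫ t0 in Icc T (2 * T), Φ t0 ≤ Real.sqrt (2 * Real.pi) * H *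
      ∫ t in (T / 2)..(3 * T), ‖D t‖ ^ 2 := by
    simp only [hΦ]
    rw [integral_integral_swap hint, intervalIntegral.integral_of_le (by linarith),
      ← integral_Icc_eq_integral_Ioc, ← integral_const_mul]
    refine setIntegral_mono_on hint.integral_prod_right
      (((hDc.norm.pow 2).integrableOn_Icc).const_mul _) measurableSet_Icc fun t _ => ?_
    simp only [hK]
    rw [integral_mul_const]
    refine mul_le_mul_of_nonneg_right ?_ (by positivity)
    obtain ⟨i1, i2⟩ := gauss_total t hH0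
    rw [← i2]
    exact setIntegral_le_integral i1 (Filter.Eventually.of_forall fun _ => (Real.exp_pos _).le)
  set A := (4 * Real.exp 21) ^ 2 * (Real.sqrt (2 * Real.pi) * H) with hA
  have hsq : 0 < Real.sqrt (2 * Real.pi) := Real.sqrt_pos.mpr (by positivity)
  have hA0 : 0 < A := by positivity
  set c := V ^ 2 / A with hc
  have hc0 : 0 < c := by positivity
  have hsub : {t0 : ℝ | t0 ∈ Icc T (2 * T) ∧ V < ‖Near Q b w α H t0 U dl‖} ⊆
      {t0 : ℝ | c ≤ Φ t0} ∩ Icc T (2 * T) := by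
    rintro t0 ⟨h3, h4⟩
    refine ⟨?_, h3⟩
    have h5 := Near_sq_le Q b w (t0 := t0) (T := T) dl hα hα1 hH hU h1 (by linarith [h3.1])
      (by linarith [h3.2])
    have h6 : V ^ 2 ≤ ‖Near Q b w α H t0 U dl‖ ^ 2 := pow_le_pow_left₀ hV.le h4.le 2
    show c ≤ Φ t0
    rw [hc, div_le_iff₀ hA0, mul_comm]
    exact h6.trans h5
  have hmarkov := mul_meas_ge_le_integral_of_nonneg (μ := volume.restrict (Icc T (2 * T)))
    (Filter.Eventually.of_forall hΦ0) hΦi c
  have hmeas : volume.real ({t0 : ℝ | c ≤ Φ t0} ∩ Icc T (2 * T)) ≤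
      (volume.restrict (Icc T (2 * T))).real {t0 : ℝ | c ≤ Φ t0} := by
    rw [Measure.real, Measure.real]
    refine ENNReal.toReal_mono (measure_ne_top _ _) ?_
    exact Measure.le_restrict_apply _ _
  have hfin : volume ({t0 : ℝ | c ≤ Φ t0} ∩ Icc T (2 * T)) ≠ ⊤ := by
    refine ne_top_of_le_ne_top ?_ (measure_mono inter_subset_right)
    rw [Real.volume_Icc]; exact ENNReal.ofReal_ne_top
  have h7 : volume.real {t0 : ℝ | t0 ∈ Icc T (2 * T) ∧ V < ‖Near Q b w α H t0 U dl‖} ≤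
      (∫ t0 in Icc T (2 * T), Φ t0) / c := by
    refine (measureReal_mono hsub hfin).trans (hmeas.trans ?_)
    rw [le_div_iff₀ hc0, mul_comm]
    exact hmarkov
  have hI0 : 0 ≤ ∫ t in (T / 2)..(3 * T), ‖D t‖ ^ 2 :=
    intervalIntegral.integral_nonneg (by linarith) fun t _ => by positivity
  calc _ ≤ (∫ t0 in Icc T (2 * T), Φ t0) / c := h7
    _ ≤ (Real.sqrt (2 * Real.pi) * H * ∫ t in (T / 2)..(3 * T), ‖D t‖ ^ 2) / c := by gcongr
    _ = (4 * Real.exp 21) ^ 2 * ((Real.sqrt (2 * Real.pi) * Real.sqrt (2 * Real.pi)) * H ^ 2) /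
        V ^ 2 * ∫ t in (T / 2)..(3 * T), ‖D t‖ ^ 2 := by
        rw [hc, hA]
        field_simp
    _ = _ := by rw [Real.mul_self_sqrt (by positivity)]

end Pool.Agent.ShortPos
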