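import Pool.Agent.ZGap.PS.NearA
import Pool.Agent.ZGap.Half.Two
import Pool.Agent.Lib.ANT.DivBound

/-!
# The near part of the square of the resonator as a sum over pairs of integers
-/

namespace Pool.Agent.ShortPos

open Complex MeasureTheory Pool.Agent.Hadamard Pool.Agent.HalfGap Pool.Agent.ZGap.Res

/-- The index type of the square of the resonator. -/
abbrev I2 : Type := (Finset ℕ × Finset ℕ) × (Finset ℕ × Finset ℕ)

/-- The pairs (frequency, integer) of the near part. -/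
noncomputable def J2 (R : ResData) (T dl : ℝ) : Finset (Σ _ : I2, ℕ) :=
  (Q2 R T).sigma fun q => Nr (w2 q) dl

/-- The pair of integers. -/
def pj (j : Σ _ : I2, ℕ) : ℕ × ℕ :=
  (pr j.1.1.2 * pr j.1.2.2, pr j.1.1.1 * pr j.1.2.1 * j.2)

/-- The coefficient. -/
noncomputable def gj (R : ResData) (T α : ℝ) (j : Σ _ : I2, ℕ) : ℂ :=
  b2 R T α j.1 * (gco α j.2 * ((j.2:ℝ) ^ (-(1:ℝ) / 2) : ℝ)) *
    ((Real.exp (-(3 / 2 * (w2 j.1 + Real.log j.2))) : ℝ) : ℂ)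

/-- The coefficient of a pair. -/
noncomputable def cj (R : ResData) (T α dl : ℝ) (p : ℕ × ℕ) : ℂ :=
  ∑ j ∈ (J2 R T dl).filter (fun j => pj j = p), gj R T α j

variable {R : ResData} {T : ℝ}

lemma mem_J2 {dl : ℝ} {j : Σ _ : I2, ℕ} (h : j ∈ J2 R T dl) :
    (j.1.1 ∈ QQ T ∧ j.1.2 ∈ QQ T ∧ al R T j.1.1 ≠ 0 ∧ al R T j.1.2 ≠ 0) ∧
      1 ≤ j.2 ∧ w2 j.1 + Real.log j.2 ≠ 0 ∧ |w2 j.1 + Real.log j.2| < dl := by
  unfold J2 at h
  rw [Finset.mem_sigma, mem_Nr] at h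
  obtain ⟨h1, h2⟩ := h
  unfold Q2 at h1
  rw [Finset.mem_filter, Finset.mem_product] at h1
  exact ⟨⟨h1.1.1, h1.1.2, h1.2.1, h1.2.2⟩, h2⟩

lemma pj_pos {dl : ℝ} {j : Σ _ : I2, ℕ} (h : j ∈ J2 R T dl) : 0 < (pj j).1 ∧ 0 < (pj j).2 := by
  obtain ⟨⟨h1, h2, -, -⟩, h5, -⟩ := mem_J2 h
  obtain ⟨a1, a2, -⟩ := mem_QQ.mp h1
  obtain ⟨b1, b2, -⟩ := mem_QQ.mp h2
  have p1 := pr_pos a1
  have p2 := pr_pos a2
  have p3 := pr_pos b1
  have p4 := pr_pos b2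
  unfold pj
  constructor
  · positivity
  · have : 0 < j.2 := h5
    positivity

lemma w2_log {dl : ℝ} {j : Σ _ : I2, ℕ} (h : j ∈ J2 R T dl) :
    w2 j.1 + Real.log j.2 = Real.log (pj j).2 - Real.log (pj j).1 := by
  obtain ⟨⟨h1, h2, -, -⟩, h5, -⟩ := mem_J2 h
  obtain ⟨a1, a2, -⟩ := mem_QQ.mp h1
  obtain ⟨b1, b2, -⟩ := mem_QQ.mp h2
  have p1 : (0:ℝ) < pr j.1.1.1 := by exact_mod_cast pr_pos a1
  have p2 : (0:ℝ) < pr j.1.1.2 := by exact_mod_cast pr_pos a2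
  have p3 : (0:ℝ) < pr j.1.2.1 := by exact_mod_cast pr_pos b1
  have p4 : (0:ℝ) < pr j.1.2.2 := by exact_mod_cast pr_pos b2
  have pn : (0:ℝ) < j.2 := by exact_mod_cast h5
  unfold pj
  push_cast
  rw [Real.log_mul (by positivity) pn.ne', Real.log_mul p1.ne' p3.ne', Real.log_mul p2.ne' p4.ne']
  unfold w2 fr
  rw [ell_eq a1, ell_eq a2, ell_eq b1, ell_eq b2]
  ring

/-- The pair form. -/
theorem DN_eq (α dl t : ℝ) : DN (Q2 R T) (b2 R T α) w2 α dl t =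
    ∑ p ∈ (J2 R T dl).image pj, cj R T α dl p *
      Complex.exp (-(((Real.log p.2 - Real.log p.1 : ℝ) : ℂ) * (t * I))) := by
  classical
  have e1 : DN (Q2 R T) (b2 R T α) w2 α dl t = ∑ j ∈ J2 R T dl, gj R T α j *
      Complex.exp (-(((Real.log (pj j).2 - Real.log (pj j).1 : ℝ) : ℂ) * (t * I))) := by
    unfold DN J2
    rw [Finset.sum_sigma]
    refine Finset.sum_congr rfl fun q hq => ?_
    rw [Finset.mul_sum]
    refine Finset.sum_congr rfl fun n hn => ?_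
    have hj : (⟨q, n⟩ : Σ _ : I2, ℕ) ∈ J2 R T dl := by
      unfold J2
      rw [Finset.mem_sigma]
      exact ⟨hq, hn⟩
    rw [← w2_log hj]
    unfold gj
    simp only
    have e2 : Complex.exp (-((w2 q + Real.log n : ℝ) : ℂ) * (3 / 2 + t * I)) =
        ((Real.exp (-(3 / 2 * (w2 q + Real.log n))) : ℝ) : ℂ) *
        Complex.exp (-(((w2 q + Real.log n : ℝ) : ℂ) * (t * I))) := by
      rw [Complex.ofReal_exp, ← Complex.exp_add]
      congr 1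
      push_cast
      ring
    rw [e2]
    ring
  rw [e1]
  have hmaps : ∀ j ∈ J2 R T dl, pj j ∈ (J2 R T dl).image pj := fun j hj =>
    Finset.mem_image_of_mem _ hj
  rw [← Finset.sum_fiberwise_of_maps_to hmaps]
  refine Finset.sum_congr rfl fun p _ => ?_
  unfold cj
  rw [Finset.sum_mul]
  refine Finset.sum_congr rfl fun j hj => ?_
  rw [(Finset.mem_filter.mp hj).2]

lemma prod_sqrt_pr (S : Finset ℕ) : ∏ p ∈ S, Real.sqrt (p:ℝ) = Real.sqrt (pr S) := by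
  unfold pr
  push_cast
  induction S using Finset.induction_on with
  | empty => simp
  | insert a s ha ih =>
    rw [Finset.prod_insert ha, Finset.prod_insert ha, Real.sqrt_mul (by positivity), ih]

/-- The size of a one-sided coefficient. -/
lemma abs_aa_le (hr : |R.r| ≤ 1) (hF : ∀ x, 0 ≤ x → R.F x ≤ 1) (hT : 1 < T) {S : Finset ℕ}
    (hS : S ⊆ PP T) : |aa R T S| ≤ (Real.sqrt (pr S))⁻¹ := by
  have hL : 0 < Real.log T := Real.log_pos hT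
  have hth : 0 < R.th := by linarith [R.ep_pos, R.ep_th]
  unfold aa
  rw [abs_mul]
  have h1 : |R.F (ell S / (R.th * Real.log T))| ≤ 1 := by
    rw [abs_of_nonneg (R.F_nonneg _)]
    exact hF _ (div_nonneg (ell_nonneg S) (by positivity))
  have h2 : |∏ p ∈ S, cc R T p| ≤ ∏ p ∈ S, (Real.sqrt p)⁻¹ := by
    rw [Finset.abs_prod]
    refine Finset.prod_le_prod (fun _ _ => abs_nonneg _) fun p hp => ?_
    have hp0 : (0:ℝ) < p := by exact_mod_cast (mem_PP.mp (hS hp)).1.pos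
    have hs : 0 < Real.sqrt p := Real.sqrt_pos.mpr hp0
    unfold cc
    rw [abs_div, abs_mul, abs_of_nonneg (R.f_nonneg _), abs_of_pos hs, div_eq_mul_inv]
    have h3 := R.f_le (Real.log p / Real.log T)
    have h4 := R.f_nonneg (Real.log p / Real.log T)
    have h5 : |R.r| * R.f (Real.log p / Real.log T) ≤ 1 := by
      have := abs_nonneg R.r
      nlinarith
    calc _ ≤ 1 * (Real.sqrt p)⁻¹ := by gcongr
      _ = _ := one_mul _
  have h3 : ∏ p ∈ S, (Real.sqrt p)⁻¹ = (Real.sqrt (pr S))⁻¹ := by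
    rw [Finset.prod_inv_distrib, prod_sqrt_pr]
  rw [h3] at h2
  calc _ ≤ 1 * (Real.sqrt (pr S))⁻¹ := by gcongr
    _ = _ := one_mul _

lemma sqrt_inv_eq {x : ℝ} (hx : 0 < x) : (Real.sqrt x)⁻¹ = x ^ (-(1:ℝ) / 2) := by
  rw [Real.sqrt_eq_rpow, ← Real.rpow_neg hx.le]
  norm_num

/-- The size of the coefficient of one index. -/
theorem norm_gj_le (hr : |R.r| ≤ 1) (hF : ∀ x, 0 ≤ x → R.F x ≤ 1) (hT : 1 < T) {α dl : ℝ}
    (hdl : dl ≤ 1 / 2) {j : Σ _ : I2, ℕ} (h : j ∈ J2 R T dl) :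
    ‖gj R T α j‖ ≤ 3 * dv j.2 * (((pj j).1:ℝ) * (pj j).2) ^ (-(1:ℝ) / 2) := by
  obtain ⟨⟨h1, h2, -, -⟩, h5, -, h7⟩ := mem_J2 h
  obtain ⟨a1, a2, -⟩ := mem_QQ.mp h1
  obtain ⟨b1, b2', -⟩ := mem_QQ.mp h2
  have p1 : (0:ℝ) < pr j.1.1.1 := by exact_mod_cast pr_pos a1
  have p2 : (0:ℝ) < pr j.1.1.2 := by exact_mod_cast pr_pos a2
  have p3 : (0:ℝ) < pr j.1.2.1 := by exact_mod_cast pr_pos b1
  have p4 : (0:ℝ) < pr j.1.2.2 := by exact_mod_cast pr_pos b2'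
  have pn : (0:ℝ) < j.2 := by exact_mod_cast h5
  have c1 := abs_aa_le (R := R) hr hF hT a1
  have c2 := abs_aa_le (R := R) hr hF hT a2
  have c3 := abs_aa_le (R := R) hr hF hT b1
  have c4 := abs_aa_le (R := R) hr hF hT b2'
  have hb : ‖b2 R T α j.1‖ ≤ (Real.sqrt (pr j.1.1.1))⁻¹ * (Real.sqrt (pr j.1.1.2))⁻¹ *
      ((Real.sqrt (pr j.1.2.1))⁻¹ * (Real.sqrt (pr j.1.2.2))⁻¹) := by
    unfold b2 al
    rw [norm_mul, Complex.norm_exp_ofReal_mul_I, mul_one, Complex.norm_real, Real.norm_eq_abs,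
      abs_mul, abs_mul, abs_mul]
    gcongr
  have hexp : Real.exp (-(3 / 2 * (w2 j.1 + Real.log j.2))) ≤ 3 := by
    have h8 := (abs_lt.mp h7).1
    calc Real.exp (-(3 / 2 * (w2 j.1 + Real.log j.2))) ≤ Real.exp 1 := by
          apply Real.exp_le_exp.mpr; linarith
      _ ≤ 3 := by linarith [Real.exp_one_lt_d9]
  unfold gj
  rw [norm_mul, norm_mul, norm_mul, Complex.norm_real, Complex.norm_real,
    Real.norm_of_nonneg (Real.exp_pos _).le, Real.norm_of_nonneg (by positivity)]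
  have hrp : (((pj j).1:ℝ) * (pj j).2) ^ (-(1:ℝ) / 2) =
      (Real.sqrt (pr j.1.1.1))⁻¹ * (Real.sqrt (pr j.1.1.2))⁻¹ *
      ((Real.sqrt (pr j.1.2.1))⁻¹ * (Real.sqrt (pr j.1.2.2))⁻¹) * (j.2:ℝ) ^ (-(1:ℝ) / 2) := by
    unfold pj
    push_cast
    rw [sqrt_inv_eq p1, sqrt_inv_eq p2, sqrt_inv_eq p3, sqrt_inv_eq p4,
      ← Real.mul_rpow p1.le p2.le, ← Real.mul_rpow p3.le p4.le,
      ← Real.mul_rpow (by positivity) (by positivity), ← Real.mul_rpow (by positivity) pn.le]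
    congr 1
    ring
  rw [hrp]
  have hd := norm_gco_le α j.2
  have hd0 := dv_nonneg j.2
  have hn0 : 0 ≤ (j.2:ℝ) ^ (-(1:ℝ) / 2) := by positivity
  set B := (Real.sqrt (pr j.1.1.1))⁻¹ * (Real.sqrt (pr j.1.1.2))⁻¹ *
      ((Real.sqrt (pr j.1.2.1))⁻¹ * (Real.sqrt (pr j.1.2.2))⁻¹) with hB
  have hB0 : 0 ≤ B := by positivity
  calc ‖b2 R T α j.1‖ * (‖gco α j.2‖ * (j.2:ℝ) ^ (-(1:ℝ) / 2)) *
        Real.exp (-(3 / 2 * (w2 j.1 + Real.log j.2))) ≤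
      B * (dv j.2 * (j.2:ℝ) ^ (-(1:ℝ) / 2)) * 3 := by gcongr
    _ = _ := by ring

/-- A squarefree product determines its set of primes. -/
lemma pr_inj {S S' : Finset ℕ} (hS : S ⊆ PP T) (hS' : S' ⊆ PP T) (h : pr S = pr S') : S = S' := by
  have e : ∀ A : Finset ℕ, A ⊆ PP T → (pr A).primeFactors = A := by
    intro A hA
    unfold pr
    exact Nat.primeFactors_prod fun p hp => (mem_PP.mp (hA hp)).1
  rw [← e S hS, ← e S' hS', h]

/-- The multiplicity of a pair. -/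
theorem card_fiber {dl : ℝ} {p : ℕ × ℕ} (hp : p ∈ (J2 R T dl).image pj) :
    (((J2 R T dl).filter (fun j => pj j = p)).card : ℝ) ≤ dv p.2 * dv p.2 * dv p.1 := by
  classical
  obtain ⟨j0, hj0, hj0p⟩ := Finset.mem_image.mp hp
  have hpos := pj_pos hj0
  rw [hj0p] at hpos
  have h1 : ((J2 R T dl).filter (fun j => pj j = p)).card ≤
      ((p.2.divisors ×ˢ p.2.divisors) ×ˢ p.1.divisors).card := by
    refine Finset.card_le_card_of_injOn
      (fun j => ((pr j.1.1.1, pr j.1.2.1), pr j.1.1.2)) ?_ ?_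
    · intro j hj
      rw [Finset.mem_coe, Finset.mem_filter] at hj
      obtain ⟨hj1, hj2⟩ := hj
      rw [Finset.mem_coe, Finset.mem_product, Finset.mem_product, Nat.mem_divisors,
        Nat.mem_divisors, Nat.mem_divisors]
      have e1 : p.1 = pr j.1.1.2 * pr j.1.2.2 := by rw [← hj2]; rfl
      have e2 : p.2 = pr j.1.1.1 * pr j.1.2.1 * j.2 := by rw [← hj2]; rfl
      refine ⟨⟨⟨?_, hpos.2.ne'⟩, ?_, hpos.2.ne'⟩, ?_, hpos.1.ne'⟩
      · exact ⟨pr j.1.2.1 * j.2, by rw [e2]; ring⟩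
      · exact ⟨pr j.1.1.1 * j.2, by rw [e2]; ring⟩
      · exact ⟨pr j.1.2.2, e1⟩
    · intro j hj k hk hjk
      rw [Finset.mem_coe, Finset.mem_filter] at hj hk
      obtain ⟨hj1, hj2⟩ := hj
      obtain ⟨hk1, hk2⟩ := hk
      simp only [Prod.mk.injEq] at hjk
      obtain ⟨⟨f1, f2⟩, f3⟩ := hjk
      obtain ⟨⟨g1, g2, -, -⟩, g5, -⟩ := mem_J2 hj1
      obtain ⟨⟨l1, l2, -, -⟩, l5, -⟩ := mem_J2 hk1
      obtain ⟨a1, a2, -⟩ := mem_QQ.mp g1
      obtain ⟨b1, b2', -⟩ := mem_QQ.mp g2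
      obtain ⟨c1, c2, -⟩ := mem_QQ.mp l1
      obtain ⟨d1, d2, -⟩ := mem_QQ.mp l2
      have s1 := pr_inj a1 c1 f1
      have s2 := pr_inj b1 d1 f2
      have s3 := pr_inj a2 c2 f3
      have e : pj j = pj k := hj2.trans hk2.symm
      unfold pj at e
      rw [Prod.mk.injEq] at e
      obtain ⟨e1, e2⟩ := e
      rw [f3] at e1
      rw [f1, f2] at e2
      have m1 := Nat.eq_of_mul_eq_mul_left (pr_pos c2) e1
      have m2 := Nat.eq_of_mul_eq_mul_left (Nat.mul_pos (pr_pos c1) (pr_pos d1)) e2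
      have s4 := pr_inj b2' d2 m1
      obtain ⟨⟨⟨x1, x2⟩, ⟨x3, x4⟩⟩, n⟩ := j
      obtain ⟨⟨⟨y1, y2⟩, ⟨y3, y4⟩⟩, m⟩ := k
      simp only at s1 s2 s3 s4 m2
      subst s1 s2 s3 s4 m2
      rfl
  rw [Finset.card_product, Finset.card_product] at h1
  unfold dv
  exact_mod_cast h1

/-- The size of the coefficient of a pair. -/
theorem norm_cj_le (hr : |R.r| ≤ 1) (hF : ∀ x, 0 ≤ x → R.F x ≤ 1) (hT : 1 < T) {α dl Z : ℝ}
    (hdl : dl ≤ 1 / 2) {p : ℕ × ℕ} (hp : p ∈ (J2 R T dl).image pj) (h1 : dv p.1 ≤ Z)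
    (h2 : ∀ n : ℕ, n ∣ p.2 → dv n ≤ Z) :
    ‖cj R T α dl p‖ ≤ 3 * Z ^ 4 * ((p.1:ℝ) * p.2) ^ (-(1:ℝ) / 2) := by
  classical
  have hZ0 : 0 ≤ Z := (dv_nonneg _).trans h1
  unfold cj
  refine (norm_sum_le _ _).trans ?_
  have hb : ∀ j ∈ (J2 R T dl).filter (fun j => pj j = p), ‖gj R T α j‖ ≤
      3 * Z * ((p.1:ℝ) * p.2) ^ (-(1:ℝ) / 2) := by
    intro j hj
    obtain ⟨hj1, hj2⟩ := Finset.mem_filter.mp hj
    have h3 := norm_gj_le (α := α) hr hF hT hdl hj1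
    rw [hj2] at h3
    refine h3.trans ?_
    have h4 : dv j.2 ≤ Z := by
      apply h2
      rw [← hj2]
      exact Dvd.intro_left _ rfl
    gcongr
  refine (Finset.sum_le_card_nsmul _ _ _ hb).trans ?_
  rw [nsmul_eq_mul]
  have hc := card_fiber hp
  have h5 : dv p.2 ≤ Z := h2 p.2 dvd_rfl
  have h6 : dv p.2 * dv p.2 * dv p.1 ≤ Z * Z * Z := by
    have := dv_nonneg p.1
    have := dv_nonneg p.2
    gcongr
  calc _ ≤ (Z * Z * Z) * (3 * Z * ((p.1:ℝ) * p.2) ^ (-(1:ℝ) / 2)) := by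
        gcongr
        exact hc.trans h6
    _ = _ := by ring

/-- The size of the integers of a pair and their distance. -/
theorem pj_bounds (hT : 1 < T) {dl : ℝ} (hdl : dl ≤ 1 / 2) {p : ℕ × ℕ}
    (hp : p ∈ (J2 R T dl).image pj) :
    1 ≤ p.1 ∧ 1 ≤ p.2 ∧ (p.1:ℝ) ≤ T ^ (2 * R.th) ∧ (p.2:ℝ) ≤ 2 * T ^ (2 * R.th) ∧ p.1 ≠ p.2 ∧
      |(p.1:ℝ) - p.2| ≤ p.1 * (2 * dl) := by
  obtain ⟨j, hj, hjp⟩ := Finset.mem_image.mp hp
  have hpos := pj_pos hj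
  have hlog := w2_log hj
  obtain ⟨⟨h1, h2, h3, h4⟩, h5, h6, h7⟩ := mem_J2 hj
  rw [hjp] at hpos hlog
  rw [hlog] at h6 h7
  have q1 : (0:ℝ) < p.1 := by exact_mod_cast hpos.1
  have q2 : (0:ℝ) < p.2 := by exact_mod_cast hpos.2
  have hT0 : 0 < T := by linarith
  have hL : 0 < Real.log T := Real.log_pos hT
  set l := Real.log p.2 - Real.log p.1 with hl
  have hl2 : (p.2:ℝ) = p.1 * Real.exp l := by
    rw [hl, Real.exp_sub, Real.exp_log q1, Real.exp_log q2]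
    field_simp
  have hP1 : (p.1:ℝ) ≤ T ^ (2 * R.th) := by
    obtain ⟨a1, a2, -⟩ := mem_QQ.mp h1
    obtain ⟨b1, b2', -⟩ := mem_QQ.mp h2
    have e1 : (p.1:ℝ) = (pr j.1.1.2 : ℝ) * pr j.1.2.2 := by
      rw [← hjp]; unfold pj; push_cast; rfl
    have k1 := ell_lt_of_aa_ne hT (right_ne_zero_of_mul h3)
    have k2 := ell_lt_of_aa_ne hT (right_ne_zero_of_mul h4)
    have p2 : (0:ℝ) < pr j.1.1.2 := by exact_mod_cast pr_pos a2
    have p4 : (0:ℝ) < pr j.1.2.2 := by exact_mod_cast pr_pos b2'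
    rw [ell_eq a2] at k1
    rw [ell_eq b2'] at k2
    rw [e1, ← Real.log_le_log_iff (by positivity) (by positivity),
      Real.log_mul p2.ne' p4.ne', Real.log_rpow hT0]
    linarith
  have habs : |Real.exp l - 1| ≤ 2 * |l| := by
    have := Real.abs_exp_sub_one_le (x := l) (by linarith [h7.le])
    linarith
  have hdist : |(p.1:ℝ) - p.2| ≤ p.1 * (2 * dl) := by
    rw [hl2]
    have e2 : (p.1:ℝ) - p.1 * Real.exp l = -(p.1 * (Real.exp l - 1)) := by ring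
    rw [e2, abs_neg, abs_mul, abs_of_pos q1]
    gcongr
    linarith [h7.le]
  refine ⟨hpos.1, hpos.2, hP1, ?_, fun h => h6 ?_, hdist⟩
  · have h8 := (abs_le.mp hdist).1
    have h9 : (p.1:ℝ) * (2 * dl) ≤ p.1 * 1 := by gcongr; linarith
    linarith
  · rw [hl, h, sub_self]

end Pool.Agent.ShortPos
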