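import Pool.Agent.ZGap.PS.NearB
import Pool.Agent.ZShort.NearMS

/-!
# The near part of the square of the resonator is small outside few centres
-/

namespace Pool.Agent.ShortPos

open Complex MeasureTheory Set Filter Topology Pool.Agent.Hadamard Pool.Agent.HalfGap
  Pool.Agent.ZGap.Res

/-- The divisor bound. -/
lemma dv_le_rpow {δ : ℝ} (hδ : 0 < δ) : ∃ C : ℝ, 1 ≤ C ∧ ∀ n : ℕ, n ≠ 0 → dv n ≤ C * (n:ℝ) ^ δ :=
  ANT.tauR_le_rpow hδ

lemma ev_log_cube (A : ℝ) {δ : ℝ} (hδ : 0 < δ) :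
    ∀ᶠ T : ℝ in atTop, A * (1 + Real.log T) ^ 3 ≤ T ^ δ := by
  have h1 : (fun T : ℝ => (Real.log T) ^ 3) =o[atTop] fun T : ℝ => T ^ δ := by
    have := isLittleO_log_rpow_rpow_atTop (s := δ) 3 hδ
    refine this.congr' ?_ (EventuallyEq.refl _ _)
    filter_upwards [eventually_ge_atTop (1:ℝ)] with T hT
    have h := Real.rpow_natCast (Real.log T) 3
    push_cast at h
    exact h
  have h2 := h1.def (c := 1 / (8 * (|A| + 1))) (by positivity)
  filter_upwards [h2, eventually_ge_atTop (Real.exp 1)] with T hT hT1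
  have hT0 : 0 < T := (Real.exp_pos 1).trans_le hT1
  have hL : 1 ≤ Real.log T := by
    rw [Real.le_log_iff_exp_le hT0]; exact hT1
  rw [Real.norm_of_nonneg (by positivity), Real.norm_of_nonneg (by positivity)] at hT
  have h3 : (1 + Real.log T) ^ 3 ≤ 8 * Real.log T ^ 3 := by
    calc (1 + Real.log T) ^ 3 ≤ (2 * Real.log T) ^ 3 := by
          apply pow_le_pow_left₀ (by linarith); linarith
      _ = _ := by ring
  have hA : A ≤ |A| + 1 := by linarith [le_abs_self A]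
  have hp : 0 ≤ (1 + Real.log T) ^ 3 := by positivity
  calc A * (1 + Real.log T) ^ 3 ≤ (|A| + 1) * (8 * Real.log T ^ 3) := by
        calc _ ≤ (|A| + 1) * (1 + Real.log T) ^ 3 := by gcongr
          _ ≤ _ := by gcongr
    _ ≤ (|A| + 1) * (8 * (1 / (8 * (|A| + 1)) * T ^ δ)) := by gcongr
    _ = T ^ δ := by
        have : |A| + 1 ≠ 0 := by positivity
        field_simp

lemma ev_rpow_ge (A : ℝ) {δ : ℝ} (hδ : 0 < δ) : ∀ᶠ T : ℝ in atTop, A ≤ T ^ δ :=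
  (tendsto_rpow_atTop hδ).eventually_ge_atTop A

/-- The mean square of the polynomial of the near part. -/
theorem DN_ms {θ κ : ℝ} (hθ : 0 < θ) (hθ' : θ < 1 / 2) (hκ : 0 < κ) {δ : ℝ} (hδ : 0 < δ)
    (hδ1 : δ ≤ 1) {R : ResData} (hth : R.th = θ) (hr : |R.r| ≤ 1)
    (hF : ∀ x, 0 ≤ x → R.F x ≤ 1) : ∃ C : ℝ, 0 < C ∧ ∀ᶠ T : ℝ in atTop, ∀ α : ℝ,
      ∫ t in (T / 2)..(3 * T), ‖DN (Q2 R T) (b2 R T α) w2 α (T ^ (-κ) / 2) t‖ ^ 2 ≤
        C * T ^ (8 * δ) * T ^ (1 - κ) * (1 + Real.log T) ^ 3 * (1 + T ^ (4 * θ - 1)) := by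
  obtain ⟨C1, hC1, hdv⟩ := dv_le_rpow hδ
  obtain ⟨C, M0, hC, hM0, hms⟩ := Pool.Agent.ZShort.near_ms
  have hC10 : 0 < C1 := by linarith
  refine ⟨C * (6 * (C1 * 2) ^ 4) ^ 2, by positivity, ?_⟩
  filter_upwards [eventually_ge_atTop (2:ℝ), ev_rpow_ge 2 hκ,
    ev_rpow_ge (1 / M0) (show 0 < 1 - 2 * θ by linarith)] with T hT2 hTκ hTM α
  have hT0 : 0 < T := by linarith
  have hT1 : 1 < T := by linarith
  set dl := T ^ (-κ) / 2 with hdl
  have hκ0 : 0 < T ^ (-κ) := Real.rpow_pos_of_pos hT0 _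
  have hκ2 : T ^ (-κ) ≤ 1 / 2 := by
    rw [Real.rpow_neg hT0.le, one_div]
    exact inv_anti₀ (by norm_num) hTκ
  have hdl2 : dl ≤ 1 / 2 := by rw [hdl]; linarith
  set Z := C1 * 2 * T ^ δ with hZ
  have hZ0 : 0 < Z := by positivity
  have hX1 : 1 ≤ T ^ (2 * θ) := Real.one_le_rpow hT1.le (by linarith)
  have hXT : T ^ (2 * θ) ≤ T := by
    calc T ^ (2 * θ) ≤ T ^ (1:ℝ) := Real.rpow_le_rpow_of_exponent_le hT1.le (by linarith)
      _ = T := Real.rpow_one T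
  have hXM : T ^ (2 * θ) ≤ M0 * T := by
    have e : T = T ^ (2 * θ) * T ^ (1 - 2 * θ) := by
      rw [← Real.rpow_add hT0]
      have : 2 * θ + (1 - 2 * θ) = 1 := by ring
      rw [this, Real.rpow_one]
    have h5 : 1 ≤ M0 * T ^ (1 - 2 * θ) := by
      rw [div_le_iff₀ hM0] at hTM
      linarith
    calc T ^ (2 * θ) = T ^ (2 * θ) * 1 := by ring
      _ ≤ T ^ (2 * θ) * (M0 * T ^ (1 - 2 * θ)) := by gcongr
      _ = M0 * (T ^ (2 * θ) * T ^ (1 - 2 * θ)) := by ring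
      _ = M0 * T := by rw [← e]
  have hdv2 : ∀ n : ℕ, n ≠ 0 → (n:ℝ) ≤ 2 * T → dv n ≤ Z := by
    intro n hn hnT
    calc dv n ≤ C1 * (n:ℝ) ^ δ := hdv n hn
      _ ≤ C1 * (2 * T) ^ δ := by gcongr
      _ = C1 * (2 ^ δ * T ^ δ) := by rw [Real.mul_rpow (by norm_num) hT0.le]
      _ ≤ C1 * (2 ^ (1:ℝ) * T ^ δ) := by gcongr; norm_num
      _ = Z := by rw [Real.rpow_one, hZ]; ring
  have hmain := hms T (T ^ (2 * θ)) (T ^ (-κ)) (6 * Z ^ 4) hX1 hXM hκ0 hκ2 (by positivity)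
    ((J2 R T dl).image pj) (cj R T α dl) (by
      intro p hp
      obtain ⟨h1, h2, h3, h4, h5, h6⟩ := pj_bounds hT1 hdl2 hp
      rw [hth] at h3 h4
      have q1 : (0:ℝ) < p.1 := by exact_mod_cast h1
      have q2 : (0:ℝ) < p.2 := by exact_mod_cast h2
      have h7 : (2:ℝ) * dl = T ^ (-κ) := by rw [hdl]; ring
      rw [h7] at h6
      have hb := norm_cj_le (α := α) hr hF hT1 hdl2 hp (Z := Z)
        (hdv2 p.1 (by omega) (by linarith)) (fun n hn => by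
          have hn0 : n ≠ 0 := by
            rintro rfl
            rw [zero_dvd_iff] at hn
            omega
          have hle : (n:ℝ) ≤ p.2 := by exact_mod_cast Nat.le_of_dvd (by omega) hn
          exact hdv2 n hn0 (by linarith))
      refine ⟨h1, h3, h5, by linarith, ?_⟩
      -- p.1 ≤ 2 p.2
      have h8 : (p.1:ℝ) ≤ 2 * p.2 := by
        have h9 := (abs_le.mp h6).2
        have h10 : (p.1:ℝ) * T ^ (-κ) ≤ p.1 * (1 / 2) := by gcongr
        linarith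
      have h11 : (((p.1:ℝ) * p.2) ^ (-(1:ℝ) / 2)) * p.1 ≤ 2 := by
        rw [← sqrt_inv_eq (by positivity), inv_mul_le_iff₀ (Real.sqrt_pos.mpr (by positivity))]
        have h12 : (p.1:ℝ) ≤ 2 * Real.sqrt (p.1 * p.2) := by
          have h13 : (p.1:ℝ) / 2 ≤ Real.sqrt (p.1 * p.2) := by
            apply Real.le_sqrt_of_sq_le
            nlinarith
          linarith
        linarith
      calc ‖cj R T α dl p‖ * p.1 ≤ 3 * Z ^ 4 * ((p.1:ℝ) * p.2) ^ (-(1:ℝ) / 2) * p.1 := by gcongr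
        _ = 3 * Z ^ 4 * (((p.1:ℝ) * p.2) ^ (-(1:ℝ) / 2) * p.1) := by ring
        _ ≤ 3 * Z ^ 4 * 2 := by gcongr
        _ = _ := by ring)
  have hEq : ∀ t : ℝ, ‖DN (Q2 R T) (b2 R T α) w2 α dl t‖ ^ 2 =
      ‖∑ p ∈ (J2 R T dl).image pj, cj R T α dl p *
        Complex.exp (-((t * Real.log (p.2 / p.1) : ℝ) : ℂ) * Complex.I)‖ ^ 2 := by
    intro t
    rw [DN_eq]
    congr 2
    refine Finset.sum_congr rfl fun p hp => ?_
    obtain ⟨h1, h2, -⟩ := pj_bounds hT1 hdl2 hp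
    have q1 : (p.1:ℝ) ≠ 0 := by
      have : (0:ℝ) < p.1 := by exact_mod_cast h1
      exact this.ne'
    have q2 : (p.2:ℝ) ≠ 0 := by
      have : (0:ℝ) < p.2 := by exact_mod_cast h2
      exact this.ne'
    rw [Real.log_div q2 q1]
    congr 2
    push_cast
    ring
  simp_rw [hEq]
  refine hmain.trans ?_
  have e1 : T * T ^ (-κ) = T ^ (1 - κ) := by
    rw [sub_eq_add_neg, Real.rpow_add hT0, Real.rpow_one]
  have e2 : (T ^ (2 * θ)) ^ 2 / T = T ^ (4 * θ - 1) := by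
    rw [← Real.rpow_natCast, ← Real.rpow_mul hT0.le, Real.rpow_sub hT0, Real.rpow_one]
    congr 2
    push_cast
    ring
  have e3 : (6 * Z ^ 4) ^ 2 = (6 * (C1 * 2) ^ 4) ^ 2 * T ^ (8 * δ) := by
    have : T ^ (8 * δ) = (T ^ δ) ^ 8 := by
      rw [← Real.rpow_natCast, ← Real.rpow_mul hT0.le]
      congr 1
      push_cast
      ring
    rw [this, hZ]
    ring
  have hlog : Real.log (T ^ (2 * θ)) ≤ Real.log T := Real.log_le_log (by positivity) hXT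
  have hlog0 : 0 ≤ Real.log (T ^ (2 * θ)) := Real.log_nonneg hX1
  rw [e2, e3]
  calc C * ((6 * (C1 * 2) ^ 4) ^ 2 * T ^ (8 * δ)) * T * T ^ (-κ) *
        (1 + Real.log (T ^ (2 * θ))) ^ 3 * (1 + T ^ (4 * θ - 1)) ≤
      C * ((6 * (C1 * 2) ^ 4) ^ 2 * T ^ (8 * δ)) * T * T ^ (-κ) *
        (1 + Real.log T) ^ 3 * (1 + T ^ (4 * θ - 1)) := by gcongr
    _ = C * (6 * (C1 * 2) ^ 4) ^ 2 * T ^ (8 * δ) * (T * T ^ (-κ)) *
        (1 + Real.log T) ^ 3 * (1 + T ^ (4 * θ - 1)) := by ring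
    _ = _ := by rw [e1]

/-- **The near part is small outside few centres.** -/
theorem near_meas2 {τ θ κ η1 η2 : ℝ} (hτ : 1 / 2 < τ) (hτ1 : τ < 1) (hθ : 0 < θ) (hθ' : θ < 1 / 2)
    (hκ : 0 < κ) (hκη : κ < η1) (h12 : η1 < η2) (h2 : η2 < 1) (h4 : 4 * θ < 1 + κ)
    {R : ResData} (hth : R.th = θ) (hr : |R.r| ≤ 1) (hF : ∀ x, 0 ≤ x → R.F x ≤ 1)
    {e : ℝ} (he : 0 < e) :
    ∃ c : ℝ, 0 < c ∧ ∃ T0 : ℝ, ∀ T : ℝ, T0 ≤ T →
      volume.real {t0 : ℝ | t0 ∈ Icc T (2 * T) ∧ e * T ^ η1 <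
        ‖Near (Q2 R T) (b2 R T (2 * Real.pi * τ / Real.log T)) w2 (2 * Real.pi * τ / Real.log T)
          (T ^ η1) t0 (T ^ η2) (T ^ (-κ) / 2)‖} ≤ T ^ (1 - c) := by
  set m := min κ (1 + κ - 4 * θ) with hm
  have hm0 : 0 < m := lt_min hκ (by linarith)
  have hm1 : m ≤ 1 := (min_le_left _ _).trans (by linarith)
  obtain ⟨C, hC, hev⟩ := DN_ms hθ hθ' hκ (δ := m / 32) (by positivity) (by linarith) hth hr hF
  set A := (4 * Real.exp 21) ^ 2 * (2 * Real.pi) / e ^ 2 * C * 2 with hA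
  have hpi := Real.pi_pos
  have hA0 : 0 < A := by positivity
  refine ⟨m / 4, by positivity, ?_⟩
  have hfin : ∀ᶠ T : ℝ in atTop, volume.real {t0 : ℝ | t0 ∈ Icc T (2 * T) ∧ e * T ^ η1 <
        ‖Near (Q2 R T) (b2 R T (2 * Real.pi * τ / Real.log T)) w2 (2 * Real.pi * τ / Real.log T)
          (T ^ η1) t0 (T ^ η2) (T ^ (-κ) / 2)‖} ≤ T ^ (1 - m / 4) := by
    filter_upwards [hev, eventually_ge_atTop (2:ℝ), ev_rpow_ge 2 (show 0 < 1 - η2 by linarith),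
      ev_log_cube A (show 0 < m / 2 by positivity),
      Real.tendsto_log_atTop.eventually_ge_atTop (2 * Real.pi * τ)] with T h5 hT2 hη hlog hpt
    have hT0 : 0 < T := by linarith
    have hT1 : 1 < T := by linarith
    have hL : 0 < Real.log T := Real.log_pos hT1
    set α := 2 * Real.pi * τ / Real.log T with hα
    have hα0 : 0 ≤ α := by
      rw [hα]; apply div_nonneg (by nlinarith) hL.le
    have hα1 : α ≤ 1 := by
      rw [hα, div_le_one hL]; exact hpt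
    have hH : 1 ≤ T ^ η1 := Real.one_le_rpow hT1.le (by linarith)
    have hU : 0 ≤ T ^ η2 := by positivity
    have h2U : 2 * T ^ η2 ≤ T := by
      calc 2 * T ^ η2 ≤ T ^ (1 - η2) * T ^ η2 := by gcongr
        _ = T := by
          rw [← Real.rpow_add hT0]
          have : 1 - η2 + η2 = 1 := by ring
          rw [this, Real.rpow_one]
    have h6 := Near_large (Q2 R T) (b2 R T α) w2 (T := T) (V := e * T ^ η1) (T ^ (-κ) / 2)
      hα0 hα1 hH hU (by linarith) h2U (by positivity)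
    refine h6.trans ?_
    have h7 := h5 α
    have e1 : (4 * Real.exp 21) ^ 2 * (2 * Real.pi * (T ^ η1) ^ 2) / (e * T ^ η1) ^ 2 =
        (4 * Real.exp 21) ^ 2 * (2 * Real.pi) / e ^ 2 := by
      have : (T ^ η1) ≠ 0 := by positivity
      field_simp
    rw [e1]
    -- exponents
    have h8 : T ^ (1 - κ) * (1 + T ^ (4 * θ - 1)) ≤ 2 * T ^ (1 - m) := by
      have a1 : T ^ (1 - κ) ≤ T ^ (1 - m) :=
        Real.rpow_le_rpow_of_exponent_le hT1.le (by linarith [min_le_left κ (1 + κ - 4 * θ)])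
      have a2 : T ^ (1 - κ) * T ^ (4 * θ - 1) ≤ T ^ (1 - m) := by
        rw [← Real.rpow_add hT0]
        exact Real.rpow_le_rpow_of_exponent_le hT1.le
          (by linarith [min_le_right κ (1 + κ - 4 * θ)])
      calc _ = T ^ (1 - κ) + T ^ (1 - κ) * T ^ (4 * θ - 1) := by ring
        _ ≤ _ := by linarith
    have hL3 : 0 ≤ (1 + Real.log T) ^ 3 := by positivity
    have hT8 : 0 ≤ T ^ (8 * (m / 32)) := by positivity
    calc (4 * Real.exp 21) ^ 2 * (2 * Real.pi) / e ^ 2 *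
          ∫ t in (T / 2)..(3 * T), ‖DN (Q2 R T) (b2 R T α) w2 α (T ^ (-κ) / 2) t‖ ^ 2 ≤
        (4 * Real.exp 21) ^ 2 * (2 * Real.pi) / e ^ 2 *
          (C * T ^ (8 * (m / 32)) * T ^ (1 - κ) * (1 + Real.log T) ^ 3 *
            (1 + T ^ (4 * θ - 1))) := by gcongr
      _ = (4 * Real.exp 21) ^ 2 * (2 * Real.pi) / e ^ 2 * C *
          T ^ (8 * (m / 32)) * (1 + Real.log T) ^ 3 *
            (T ^ (1 - κ) * (1 + T ^ (4 * θ - 1))) := by ring
      _ ≤ (4 * Real.exp 21) ^ 2 * (2 * Real.pi) / e ^ 2 * C *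
          T ^ (8 * (m / 32)) * (1 + Real.log T) ^ 3 * (2 * T ^ (1 - m)) := by gcongr
      _ = (A * (1 + Real.log T) ^ 3) * (T ^ (8 * (m / 32)) * T ^ (1 - m)) := by rw [hA]; ring
      _ ≤ T ^ (m / 2) * (T ^ (8 * (m / 32)) * T ^ (1 - m)) := by gcongr
      _ = T ^ (1 - m / 4) := by
          rw [← Real.rpow_add hT0, ← Real.rpow_add hT0]
          congr 1
          ring
  obtain ⟨T0, hT0⟩ := eventually_atTop.mp hfin
  exact ⟨T0, hT0⟩

end Pool.Agent.ShortPos
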