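import Pool.Agent.ZGap.PS.Box
import Pool.Agent.ZGap.PS.Exp
import Pool.Agent.ZGap.Half.Prop
import Pool.Agent.ZGap.Half.ShortMJ2

/-!
# The exceptional set has positive proportion in every short interval
-/

namespace Pool.Agent.ShortPos

open Complex MeasureTheory Set Pool.Agent.Hadamard Filter Pool.Agent.ZGap.Res Pool.Agent.HalfGap
open scoped ComplexConjugate Topology

/-- Fubini with centres in an interval `[c1, c2]`. -/
theorem fub_short {S : Set ℝ} {a b : ℝ} (hS : MeasurableSet S) (hSb : S ⊆ Icc a b) {g : ℝ → ℝ}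
    (hg : Continuous g) (hg0 : ∀ t, 0 ≤ g t) {H c c1 c2 : ℝ} (hc : c1 ≤ c2) (hH : 0 < H)
    (h : ∀ t0, c1 ≤ t0 → t0 ≤ c2 →
      c ≤ ∫ t in S, Real.exp (-(t - t0) ^ 2 / (2 * H ^ 2)) * g t) :
    c * (c2 - c1) ≤ Real.sqrt (2 * Real.pi) * H * ∫ t in S, g t := by
  set K : ℝ → ℝ → ℝ := fun t0 t => Real.exp (-(t - t0) ^ 2 / (2 * H ^ 2)) * g t with hK
  have hKc : Continuous (Function.uncurry K) := by
    simp only [hK, Function.uncurry_def]
    have : Continuous fun p : ℝ × ℝ => g p.2 := hg.comp continuous_snd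
    fun_prop
  have hint : Integrable (Function.uncurry K)
      ((volume.restrict (Icc c1 c2)).prod (volume.restrict S)) := by
    rw [Measure.prod_restrict, ← Measure.volume_eq_prod]
    have h1 : IntegrableOn (Function.uncurry K) (Icc c1 c2 ×ˢ Icc a b) :=
      hKc.continuousOn.integrableOn_compact (isCompact_Icc.prod isCompact_Icc)
    exact h1.mono_set (prod_mono le_rfl hSb)
  have h2 : ∫ t0 in Icc c1 c2, c ≤ ∫ t0 in Icc c1 c2, ∫ t in S, K t0 t := by
    apply setIntegral_mono_on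
    · exact integrableOn_const (by simp)
    · exact hint.integral_prod_left
    · exact measurableSet_Icc
    · intro t0 ht0
      exact h t0 ht0.1 ht0.2
  have h3 : ∫ t0 in Icc c1 c2, c = c * (c2 - c1) := by
    rw [setIntegral_const, Measure.real, Real.volume_Icc, ENNReal.toReal_ofReal (by linarith),
      smul_eq_mul]
    ring
  rw [h3, integral_integral_swap hint] at h2
  refine h2.trans ?_
  rw [← integral_const_mul]
  have hgS : IntegrableOn g S := (hg.continuousOn.integrableOn_compact isCompact_Icc).mono_set hSb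
  apply setIntegral_mono_on hint.integral_prod_right (hgS.const_mul _) hS
  intro t _
  simp only [hK, Function.uncurry]
  rw [integral_mul_const]
  apply mul_le_mul_of_nonneg_right _ (hg0 t)
  obtain ⟨i1, i2⟩ := gauss_total t hH
  rw [← i2]
  exact setIntegral_le_integral i1 (Filter.Eventually.of_forall fun t0 => (Real.exp_pos _).le)

/-- **The exceptional set has positive proportion in every interval of length `H ≥ T ^ a`**. -/
theorem prop_EE_short (hRH : RiemannHypothesis) {a τ : ℝ} (ha : 0 < a) (ha1 : a < 1)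
    (hτa : 1 / (1 + a) < τ) (hτ1 : τ < 1) :
    ∃ κ0 : ℝ, 0 < κ0 ∧ ∃ T0 : ℝ, ∀ T : ℝ, T0 ≤ T → ∀ y H : ℝ, T ≤ y → y + H ≤ 2 * T →
      T ^ a ≤ H → κ0 * H ≤ volume.real (EE (2 * Real.pi * τ / Real.log T) ∩ Icc y (y + H)) := by
  have hpi := Real.pi_pos
  have hτ : 1 / 2 < τ := by
    refine lt_of_le_of_lt ?_ hτa
    apply one_div_le_one_div_of_le (by linarith) (by linarith)
  have hτ0 : 0 < τ := by linarith
  have hτinv : 1 / τ - 1 < a := by
    rw [div_lt_iff₀ (by linarith)] at hτa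
    rw [sub_lt_iff_lt_add, div_lt_iff₀ hτ0]
    linarith
  have hτinv0 : 0 < 1 / τ - 1 := by
    rw [sub_pos, lt_div_iff₀ hτ0]
    linarith
  set θ := (1 / τ - 1 + a) / 4 with hθ
  have hθ0 : 0 < θ := by rw [hθ]; linarith
  have h2θ : 1 / τ - 1 < 2 * θ := by rw [hθ]; linarith
  have h2θa : 2 * θ < a := by rw [hθ]; linarith
  have hθh : θ < 1 / 2 := by linarith
  set η1 := (2 * θ + a) / 2 with hη1
  set η2 := (η1 + a) / 2 with hη2
  have hη10 : 0 < η1 := by rw [hη1]; linarith
  have hκη : 2 * θ < η1 := by rw [hη1]; linarith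
  have hη1a : η1 < a := by rw [hη1]; linarith
  have hη12 : η1 < η2 := by rw [hη2]; linarith
  have hη2a : η2 < a := by rw [hη2]; linarith
  have hη21 : η2 < 1 := by linarith
  have hη22 : η2 < 2 * η1 := by
    have : a < 2 * η1 := by rw [hη1]; linarith
    linarith
  have h3 : 1 < τ * (1 + 2 * θ) := by
    have : 1 / τ < 1 + 2 * θ := by linarith
    rw [div_lt_iff₀ hτ0] at this
    linarith
  obtain ⟨c, hc, e, he, hMJ⟩ := MJ_two_gen hτ hτ1 hθ0 hθh h3 hη10 hη22 hη12 hη21
  obtain ⟨R, hth, hep, hr, hlin⟩ := exists_linProf (th := θ) (ep := min e (θ / 4))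
    (δ := min e (1 / 2)) (a := 1) (b := 0) (-1) (lt_min he (by positivity))
    (by have := min_le_right e (θ / 4); linarith) hθh zero_le_one le_rfl (by norm_num)
    (lt_min he (by norm_num)) (min_le_right _ _)
  obtain ⟨T1, hM⟩ := hMJ R hr hth (by rw [hep]; exact min_le_left _ _) _ (min_le_left _ _) hlin
  obtain ⟨T2, hW⟩ := wrap hRH (τ := τ) (κ := 2 * θ) (η1 := η1) (η2 := η2) (A := 5)
    (by linarith) hτ1 hκη (by linarith) hη12 hη21
  obtain ⟨n, hn⟩ := exists_nat_one_div_lt ha
  have hn' : 1 / ((n + 1 : ℕ) : ℝ) ≤ a := by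
    push_cast
    exact hn.le
  obtain ⟨K, T3, hK, hT3, hbox⟩ := box_moment_short hRH (b := n + 1) (by omega) R (4 * Real.pi + 1)
  obtain ⟨C, hC, hFF⟩ := FF_box hRH hτ hτ1
  obtain ⟨C4, T4, hC4, hexp⟩ := exp_moment_short hRH (b := n + 1) (by omega) (4 * C) (by positivity)
  -- the constants
  set c5 := c / (8 * Real.exp 2 * Real.sqrt (2 * Real.pi)) with hc5
  have hsq : 0 < Real.sqrt (2 * Real.pi) := Real.sqrt_pos.mpr (by positivity)
  have hc5pos : 0 < c5 := by positivity
  refine ⟨c5 ^ 4 / (K ^ 2 * C4), by positivity, ?_⟩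
  have e5 : ∀ᶠ T : ℝ in atTop, 8 * T ^ η2 ≤ T ^ a := by
    have h1 : Tendsto (fun T : ℝ => T ^ (a - η2)) atTop atTop := tendsto_rpow_atTop (by linarith)
    filter_upwards [h1.eventually_ge_atTop 8, eventually_gt_atTop 0] with T hT hT0
    have h2 : T ^ (a - η2) * T ^ η2 = T ^ a := by
      rw [← Real.rpow_add hT0]; simp
    have h3 : 0 < T ^ η2 := Real.rpow_pos_of_pos hT0 _
    exact (mul_le_mul_of_nonneg_right hT h3.le).trans_eq h2
  have e6 : ∀ᶠ T : ℝ in atTop, 7 ≤ Real.log T := Real.tendsto_log_atTop.eventually_ge_atTop 7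
  have e8 : ∀ᶠ T : ℝ in atTop, 2 / c ≤ T ^ η1 :=
    (tendsto_rpow_atTop (by linarith : 0 < η1)).eventually_ge_atTop _
  have e7 := ((e5.and e6).and (e8.and (eventually_ge_atTop (E1 R ^ 2)))).and
    (((eventually_ge_atTop T1).and (eventually_ge_atTop T2)).and
      ((eventually_ge_atTop T3).and (eventually_ge_atTop T4)))
  obtain ⟨T0, hT0⟩ := eventually_atTop.mp e7
  refine ⟨max T0 (Real.exp 3), fun T hT y H hy hyH hTH => ?_⟩
  obtain ⟨⟨⟨s5, s6⟩, s8, s9⟩, ⟨s1, s2⟩, s3, s4⟩ := hT0 T ((le_max_left _ _).trans hT)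
  have hTe : Real.exp 3 ≤ T := (le_max_right _ _).trans hT
  have h1T : 1 < T := lt_of_lt_of_le (Real.one_lt_exp_iff.mpr (by norm_num)) hTe
  have hTpos : 0 < T := by linarith
  have hTapos : 0 < T ^ a := Real.rpow_pos_of_pos hTpos _
  have hHH : 0 < H := hTapos.trans_le hTH
  set L := Real.log T with hL
  have hLpos : 0 < L := by linarith
  set α := 2 * Real.pi * τ / L with hα
  set S := EE α ∩ Icc y (y + H) with hS
  have hSm : MeasurableSet S := (measurableSet_EE α).inter measurableSet_Icc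
  have hSb : S ⊆ Icc y (y + H) := inter_subset_right
  obtain ⟨E, hEc, hE0, hEb, hE4⟩ := hbox T s3
  set g : ℝ → ℝ := fun t => E t ^ 2 * Real.exp (C * XX T t) with hg
  have hXc : Continuous (XX T) := XX_continuous hRH (by linarith)
  have hgc : Continuous g := (hEc.pow 2).mul (Real.continuous_exp.comp (hXc.const_mul C))
  have hg0 : ∀ t, 0 ≤ g t := fun t => by simp only [hg]; positivity
  have hH1 : 1 ≤ T ^ η1 := Real.one_le_rpow h1T.le (by linarith)
  have hHpos : 0 < T ^ η1 := by linarith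
  have hη2pos : 0 < T ^ η2 := Real.rpow_pos_of_pos hTpos _
  -- the inequality for each centre
  have hcen : ∀ t0, y + 2 * T ^ η2 ≤ t0 → t0 ≤ y + H - 2 * T ^ η2 →
      c / (4 * Real.exp 2) * T ^ η1 ≤
      ∫ t in S, Real.exp (-(t - t0) ^ 2 / (2 * (T ^ η1) ^ 2)) * g t := by
    intro t0 ht0 ht0'
    have hTt0 : T ≤ t0 := by linarith
    have hTt0' : t0 ≤ 2 * T := by linarith
    set G : ℝ → ℝ := fun t => Real.exp 2 * Real.exp (-(t - t0) ^ 2 / (2 * (T ^ η1) ^ 2)) * g t
      with hG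
    have hGc : Continuous G := by
      simp only [hG]
      exact (by fun_prop : Continuous fun t : ℝ =>
        Real.exp 2 * Real.exp (-(t - t0) ^ 2 / (2 * (T ^ η1) ^ 2))).mul hgc
    have hG0 : ∀ t, 0 ≤ G t := fun t => mul_nonneg (by positivity) (hg0 t)
    have key := hW T s2 t0 hTt0 hTt0' (Q2 R T) (b2 R T α) w2 (fun s => BS2_conj R T α s)
      (fun t => BS2_re_nonneg R T α t)
      (by
        refine (sum_b2_exp_le hTe (fun x hx => hlin.F_le_one hx) α).trans ?_
        have : T ^ (5:ℝ) = T ^ 4 * T := by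
          rw [show (5:ℝ) = ((5:ℕ):ℝ) by norm_num, Real.rpow_natCast]; ring
        rw [this]
        exact mul_le_mul_of_nonneg_left s9 (by positivity))
      (fun q hq n hn => by
        have := w2_sep h1T hq hn
        rwa [hth] at this)
      G hG0 hGc.integrableOn_Icc
      (fun t _ s h1 h2 h3 => hFF T s6 R E hEb (T ^ η1) t0 hH1 t s h1 h2 h3)
    have key2 := hM T s1 t0 hTt0 hTt0'
    have hmono : ∫ t in Icc (t0 - 2 * T ^ η2) (t0 + 2 * T ^ η2) ∩ EE α, G t ≤ ∫ t in S, G t := by
      apply setIntegral_mono_set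
      · exact (hGc.integrableOn_Icc (a := y) (b := y + H)).mono_set hSb
      · exact Filter.Eventually.of_forall fun t => hG0 t
      · apply LE.le.eventuallyLE
        rintro t ⟨ht1, ht2⟩
        refine ⟨ht2, ?_, ?_⟩
        · linarith [ht1.1]
        · linarith [ht1.2]
    have hGi : ∫ t in S, G t = Real.exp 2 *
        ∫ t in S, Real.exp (-(t - t0) ^ 2 / (2 * (T ^ η1) ^ 2)) * g t := by
      rw [← integral_const_mul]
      congr 1
      funext t
      simp only [hG]
      ring
    have hkk : -(2 * ∫ t in Icc (t0 - 2 * T ^ η2) (t0 + 2 * T ^ η2) ∩ EE α, G t) - 1 ≤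
        -c * T ^ η1 := key.trans key2
    have h8 : 2 ≤ c * T ^ η1 := by
      rw [div_le_iff₀ hc] at s8
      linarith
    rw [hGi] at hmono
    have hexp2 : 0 < Real.exp 2 := Real.exp_pos _
    have h9 : c * T ^ η1 / 4 ≤ Real.exp 2 *
        ∫ t in S, Real.exp (-(t - t0) ^ 2 / (2 * (T ^ η1) ^ 2)) * g t := by linarith
    rw [div_mul_eq_mul_div, div_le_iff₀ (by positivity)]
    linarith
  have hlen : H / 2 ≤ (y + H - 2 * T ^ η2) - (y + 2 * T ^ η2) := by linarith
  have hfub := fub_short hSm hSb hgc hg0 (c1 := y + 2 * T ^ η2) (c2 := y + H - 2 * T ^ η2)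
    (by linarith) hHpos hcen
  have hfub' : c / (4 * Real.exp 2) * T ^ η1 * (H / 2) ≤
      Real.sqrt (2 * Real.pi) * T ^ η1 * ∫ t in S, g t :=
    (mul_le_mul_of_nonneg_left hlen (by positivity)).trans hfub
  have h10 : c5 * H ≤ ∫ t in S, g t := by
    have h11 : c / (8 * Real.exp 2) * H ≤ Real.sqrt (2 * Real.pi) * ∫ t in S, g t := by
      have h12 : (c / (8 * Real.exp 2) * H) * T ^ η1 ≤
          (Real.sqrt (2 * Real.pi) * ∫ t in S, g t) * T ^ η1 := by
        calc _ = c / (4 * Real.exp 2) * T ^ η1 * (H / 2) := by ring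
          _ ≤ _ := hfub'
          _ = _ := by ring
      exact le_of_mul_le_mul_right h12 hHpos
    have h13 : c5 * H = (c / (8 * Real.exp 2) * H) / Real.sqrt (2 * Real.pi) := by
      rw [hc5]
      field_simp
    rw [h13, div_le_iff₀ hsq]
    linarith
  -- Hölder
  have hbT : T ^ (1 / ((n + 1 : ℕ) : ℝ)) ≤ H :=
    (Real.rpow_le_rpow_of_exponent_le h1T.le hn').trans hTH
  have hf2c : Continuous fun t => Real.exp (C * XX T t) := Real.continuous_exp.comp (hXc.const_mul C)
  have j1 : Continuous fun t => (E t ^ 2) ^ 2 := (hEc.pow 2).pow 2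
  have j2 : Continuous fun t => Real.exp (C * XX T t) ^ 4 := hf2c.pow 4
  have j3 : IntegrableOn (fun t => (E t ^ 2) ^ 2) (Icc y (y + H)) := j1.integrableOn_Icc
  have j4 : IntegrableOn (fun t => Real.exp (C * XX T t) ^ 4) (Icc y (y + H)) :=
    j2.integrableOn_Icc
  have hho := holder_E4 (a := y) (b := y + H) hSm hSb (f := fun t => E t ^ 2)
    (g := fun t => Real.exp (C * XX T t)) (hEc.pow 2).aestronglyMeasurable
    hf2c.aestronglyMeasurable j3 j4
  have i1 : ∫ t in Icc y (y + H), (E t ^ 2) ^ 2 ≤ K * H := by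
    rw [integral_Icc_eq_integral_Ioc, ← intervalIntegral.integral_of_le (by linarith)]
    refine le_of_eq_of_le ?_ (hE4 y H (by linarith) (by linarith) hbT)
    congr 1
    funext t
    ring
  have i2 : ∫ t in Icc y (y + H), Real.exp (C * XX T t) ^ 4 ≤ C4 * H := by
    rw [integral_Icc_eq_integral_Ioc, ← intervalIntegral.integral_of_le (by linarith)]
    refine le_of_eq_of_le ?_ (hexp T s4 y H (by linarith) (by linarith) hbT)
    congr 1
    funext t
    rw [← Real.exp_nat_mul]
    congr 1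
    unfold XX
    push_cast
    ring
  have i10 : 0 ≤ ∫ t in Icc y (y + H), (E t ^ 2) ^ 2 :=
    integral_nonneg fun t => by positivity
  have i20 : 0 ≤ ∫ t in Icc y (y + H), Real.exp (C * XX T t) ^ 4 :=
    integral_nonneg fun t => by positivity
  have hV : 0 ≤ volume.real S := measureReal_nonneg
  have h14 : (c5 * H) ^ 4 ≤ volume.real S * (K * H) ^ 2 * (C4 * H) := by
    calc (c5 * H) ^ 4 ≤ (∫ t in S, g t) ^ 4 := pow_le_pow_left₀ (by positivity) h10 4
      _ ≤ _ := hho
      _ ≤ volume.real S * (K * H) ^ 2 * (C4 * H) := by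
          apply mul_le_mul _ i2 i20 (by positivity)
          apply mul_le_mul_of_nonneg_left _ hV
          exact pow_le_pow_left₀ i10 i1 2
  have h15 : c5 ^ 4 * H ≤ volume.real S * (K ^ 2 * C4) := by
    have h16 : (c5 ^ 4 * H) * H ^ 3 ≤ (volume.real S * (K ^ 2 * C4)) * H ^ 3 := by
      calc _ = (c5 * H) ^ 4 := by ring
        _ ≤ _ := h14
        _ = _ := by ring
    exact le_of_mul_le_mul_right h16 (by positivity)
  rw [div_mul_eq_mul_div, div_le_iff₀ (by positivity)]
  exact h15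

end Pool.Agent.ShortPos
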